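import Mathlib
import Pool.Agent.H63.MSDefs

set_option autoImplicit false

open MeasureTheory Set Finset
open scoped ENNReal

namespace Pool.Agent.H71.MS

/-- `g : ℝ → [0, ∞]` is measurable, vanishes outside `[0,1]`, and its autoconvolution `g * g` is at
most `M` everywhere. -/
def AutoLE (M : ℝ) (g : ℝ → ℝ≥0∞) : Prop :=
  Measurable g ∧ (∀ x, x ∉ Set.Icc (0:ℝ) 1 → g x = 0) ∧
    ∀ s : ℝ, ∫⁻ x, g x * g (s - x) ≤ ENNReal.ofReal M

/-- The `M ≥ 0` for which the constant `1` on `[0,1]` is (almost everywhere) a finite average of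
functions with autoconvolution at most `M`. -/
def MixSet : Set ℝ := {M : ℝ | 0 ≤ M ∧ ∃ (k : ℕ) (p : Fin k → ℝ) (g : Fin k → ℝ → ℝ≥0∞),
  (∀ i, 0 ≤ p i) ∧ ∑ i, p i = 1 ∧ (∀ i, AutoLE M (g i)) ∧
    ∀ᵐ x ∂(volume.restrict (Set.Icc (0:ℝ) 1)), ∑ i, ENNReal.ofReal (p i) * g i x = 1}

/-- `h` is a probability density on `[0,1]`. -/
def ProbDensity (h : ℝ → ℝ≥0∞) : Prop := Measurable h ∧ ∫⁻ x in Set.Icc (0:ℝ) 1, h x = 1

/-- The weighted autoconvolution constant of `h`: the infimum of the bounds `M` for `g * g`, over the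
`g ≥ 0` on `[0,1]` with `∫ g h ≥ 1`. -/
noncomputable def autoConst (h : ℝ → ℝ≥0∞) : ℝ :=
  sInf {M : ℝ | 0 ≤ M ∧ ∃ g, AutoLE M g ∧ 1 ≤ ∫⁻ x in Set.Icc (0:ℝ) 1, g x * h x}

/-- `G` is a nonnegative vector of length `n` (extended by zero) all of whose discrete
autoconvolution values are at most `M * n`. -/
def Feas (n : ℕ) (M : ℝ) (G : ℕ → ℝ) : Prop :=
  (∀ t, 0 ≤ G t) ∧ (∀ t, n ≤ t → G t = 0) ∧ ∀ m, ∑ u ∈ range (m + 1), G u * G (m - u) ≤ M * n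

/-- The `M ≥ 0` for which the all-one vector of length `n` is an average of `n + 1` vectors whose
discrete autoconvolution values are at most `M * n`. -/
def Disc (n : ℕ) : Set ℝ := {M : ℝ | 0 ≤ M ∧ ∃ (p : Fin (n + 1) → ℝ) (G : Fin (n + 1) → ℕ → ℝ),
  (∀ i, 0 ≤ p i) ∧ ∑ i, p i = 1 ∧ (∀ i, Feas n M (G i)) ∧ ∀ t < n, ∑ i, p i * G i t = 1}

/-- The value of the `n`-cell problem. -/
noncomputable def cellConst (n : ℕ) : ℝ := sInf (Disc n)

/-- `MS([n], r)`: the largest `k` such that every `r`-colouring of `{1, ..., n}` has a monochromatic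
symmetric subset with at least `k` elements. -/
noncomputable def MSn (n r : ℕ) : ℕ := sSup {k : ℕ | ∀ χ : ℕ → Fin r, ∃ A : Finset ℕ,
  A ⊆ Finset.Icc 1 n ∧ (∃ s : ℕ, ∀ a ∈ A, ∃ b ∈ A, a + b = s) ∧ (∃ i, ∀ a ∈ A, χ a = i) ∧ k ≤ A.card}

end Pool.Agent.H71.MS
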