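import Mathlib
import Pool.Agent.H71.MS.Defs
import Pool.Agent.H63.MSUpperE

/-!
Row MS/Col (PI helper71). Colourings from real tables. All tools are in Pool/Agent/H63/MSUpper*.lean
(`block_conv`, `good_labelling`, `realise`, `upper_abstract`, `ms_upper_abstract`): the proofs below are
the proof of `upper_abstract` (file MSUpperE.lean) for a general real table.

`table_labelling`: apply `good_labelling` to `p a c = if a < n then P c (a / B) else 0`; its pair sum is
at most that of `P c (· / B)` (nonnegative), which is `≤ B * W` by `block_conv`.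
`table_upper`: as in `upper_abstract`: for every `δ` take `B` large, `n = N * B`, `realise`; let `δ → 0`.
`ms_le_of_disc`: let `K = n + 1`, `r > K`, `M ∈ Disc n` with weights `p i` and vectors `G i`.
Give type `i` exactly `r i = ⌈(r - K) * p i⌉₊` colours (`∑ r i ≤ r`, since each is `≤ (r-K) p i + 1`), the
colours of type `i` all have `P c t = p i * G i t / r i` (if `r i = 0` then `p i = 0`), unused colours
`P c = 0` (choose a map `Fin r → Option (Fin K)` with fibres of size `r i`; e.g. first prove that there is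
`τ : Fin r → Option (Fin K)` with `card {c | τ c = some i} = r i`). Then `∑_c P c t = ∑ p i G i t = 1`,
and the autoconvolution of `P c` is `(p i / r i)^2 * (≤ M n) ≤ M * n / (r - K)^2`. So `table_upper` with
`N = n`, `W = M * n / (r - K)^2` gives `ε ≤ M / (r - K)^2` for all attained `ε`, and `Real.sSup_le`.
`ms_le_one`: `table_upper` with `N = 1`, `P c t = if t = 0 then 1 / r else 0`, `W = 1 / r ^ 2`.
-/

set_option autoImplicit false

open MeasureTheory Set Finset
open scoped ENNReal

namespace Pool.Agent.H71.MS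

open Pool.Agent.H63.MS

theorem table_labelling {r : ℕ} (P : Fin r → ℕ → ℝ) (N : ℕ) (hN : 0 < N)
    (hP0 : ∀ c t, 0 ≤ P c t) (hP1 : ∀ t < N, ∑ c, P c t = 1) (hPN : ∀ c t, N ≤ t → P c t = 0)
    (W : ℝ) (hW : ∀ c m, ∑ u ∈ range (m + 1), P c u * P c (m - u) ≤ W)
    (B : ℕ) (hB : 0 < B) (n : ℕ) (hn : n ≤ N * B) (δ : ℝ) (hδ0 : 0 < δ) (hδ1 : δ ≤ 1)
    (hbig : 2 * (n:ℝ) * r * Real.exp (-(δ ^ 2 * n / 4)) < 1) :
    ∃ ω : ℕ → Option (Fin r), (∀ a < n, ω a ≠ none) ∧ ∀ k : ℕ, ∀ c : Fin r,
      ∑ a ∈ range (k + 1), (if a < n ∧ ω a = some c then (1:ℝ) else 0) *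
          (if k - a < n ∧ ω (k - a) = some c then (1:ℝ) else 0) ≤ B * W + 2 * δ * n + 1 := by
  have hp0 : ∀ a c, 0 ≤ (if a < n then P c (a / B) else 0) := by
    intro a c
    split_ifs
    · exact hP0 _ _
    · exact le_rfl
  have hp1 : ∀ a < n, ∑ c, (if a < n then P c (a / B) else 0) = 1 := by
    intro a ha
    have haN : a / B < N := by
      rw [Nat.div_lt_iff_lt_mul hB]; omega
    simp only [ha, if_true]
    exact hP1 _ haN
  have hpn : ∀ a, n ≤ a → ∀ c, (if a < n then P c (a / B) else 0) = 0 := by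
    intro a ha c
    rw [if_neg (by omega)]
  obtain ⟨ω, hω, hcount⟩ := good_labelling (fun a c => if a < n then P c (a / B) else 0) n δ
    hδ0 hδ1 hp0 hp1 hpn hbig
  refine ⟨ω, hω, fun k c => (hcount k c).trans ?_⟩
  have h1 : ∑ a ∈ range (k + 1), (if a < n then P c (a / B) else 0) *
      (if k - a < n then P c ((k - a) / B) else 0) ≤
      ∑ a ∈ range (k + 1), P c (a / B) * P c ((k - a) / B) := by
    refine Finset.sum_le_sum fun a _ => ?_
    have e1 := hP0 c (a / B)
    have e2 := hP0 c ((k - a) / B)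
    split_ifs <;> nlinarith [mul_nonneg e1 e2]
  have h2 := block_conv (P c) (hP0 c) W (hW c) B hB k
  linarith

theorem table_upper {r : ℕ} (hr : 0 < r) (P : Fin r → ℕ → ℝ) (N : ℕ) (hN : 0 < N)
    (hP0 : ∀ c t, 0 ≤ P c t) (hP1 : ∀ t < N, ∑ c, P c t = 1) (hPN : ∀ c t, N ≤ t → P c t = 0)
    (W : ℝ) (hW : ∀ c m, ∑ u ∈ range (m + 1), P c u * P c (m - u) ≤ W)
    (ε : ℝ) (hA : Attained r ε) : ε ≤ W / N := by
  have hW0 : 0 ≤ W :=
    le_trans (Finset.sum_nonneg fun u _ => mul_nonneg (hP0 _ _) (hP0 _ _)) (hW ⟨0, hr⟩ 0)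
  have hN0 : (0:ℝ) < N := by exact_mod_cast hN
  have main : ∀ δ : ℝ, 0 < δ → δ ≤ 1 → ε ≤ W / N + 3 * δ := by
    intro δ hδ0 hδ1
    have hev := eventually_small (2 * r) (δ ^ 2 / 4) (by positivity) (by positivity)
    obtain ⟨n0, hn0⟩ := Filter.eventually_atTop.mp hev
    obtain ⟨n1, hn1⟩ := exists_nat_gt (1 / δ)
    obtain ⟨B, hB⟩ : ∃ B, B = n0 + n1 + 1 := ⟨_, rfl⟩
    have hB0 : 0 < B := by omega
    obtain ⟨n, hn⟩ : ∃ n, n = N * B := ⟨_, rfl⟩
    have hnB : B ≤ n := by
      rw [hn]; exact Nat.le_mul_of_pos_left _ hN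
    have hnpos : 0 < n := by omega
    have hnr : (0:ℝ) < n := by exact_mod_cast hnpos
    have hbig : 2 * (n:ℝ) * r * Real.exp (-(δ ^ 2 * n / 4)) < 1 := by
      have h := hn0 n (by omega)
      have e : 2 * (n:ℝ) * r * Real.exp (-(δ ^ 2 * n / 4)) =
          2 * r * n * Real.exp (-(δ ^ 2 / 4 * n)) := by
        have : δ ^ 2 * n / 4 = δ ^ 2 / 4 * n := by ring
        rw [this]; ring
      rw [e]; exact h
    obtain ⟨ω, hω, hV⟩ := table_labelling P N hN hP0 hP1 hPN W hW B hB0 n (le_of_eq hn) δ hδ0 hδ1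
      hbig
    have hfin := realise hr n hnpos ω hω (B * W + 2 * δ * n + 1) (by positivity) hV ε hA
    refine hfin.trans ?_
    have hBr : (0:ℝ) < B := by exact_mod_cast hB0
    have h1 : (B * W + 2 * δ * n + 1) / n = W / N + 2 * δ + 1 / n := by
      rw [hn]; push_cast
      field_simp
    rw [h1]
    have h2 : 1 / (n:ℝ) ≤ δ := by
      rw [div_le_iff₀ hnr]
      have h3 : 1 / δ < (n:ℝ) := by
        refine lt_of_lt_of_le hn1 ?_
        have : n1 ≤ n := by omega
        exact_mod_cast this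
      rw [div_lt_iff₀ hδ0] at h3
      linarith
    linarith
  apply le_of_forall_pos_le_add
  intro η hη
  have h := main (min 1 (η / 3)) (by positivity) (min_le_left _ _)
  have h2 : min 1 (η / 3) ≤ η / 3 := min_le_right _ _
  linarith

/-- The table of a mixture. -/
theorem table_of_disc (n : ℕ) (hn : 0 < n) (M : ℝ) (hM : M ∈ Disc n) (r : ℕ) (hr : n + 1 < r) :
    ∃ P : Fin r → ℕ → ℝ, (∀ c t, 0 ≤ P c t) ∧ (∀ t < n, ∑ c, P c t = 1) ∧
      (∀ c t, n ≤ t → P c t = 0) ∧
      ∀ c m, ∑ u ∈ range (m + 1), P c u * P c (m - u) ≤ M * n / ((r:ℝ) - (n + 1)) ^ 2 := by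
  obtain ⟨hM0, p, G, hp0, hp1, hG, hsum⟩ := hM
  obtain ⟨R, hR⟩ : ∃ R : ℝ, R = (r:ℝ) - (n + 1) := ⟨_, rfl⟩
  have hRpos : 0 < R := by
    have : ((n + 1 : ℕ) : ℝ) < r := by exact_mod_cast hr
    push_cast at this
    rw [hR]; linarith
  rw [← hR]
  obtain ⟨rr, hrr⟩ : ∃ rr : Fin (n + 1) → ℕ, rr = fun i => ⌈R * p i⌉₊ := ⟨_, rfl⟩
  have hle : ∀ i, R * p i ≤ rr i := by
    intro i; rw [hrr]; exact Nat.le_ceil _
  have hlt : ∀ i, (rr i : ℝ) < R * p i + 1 := by
    intro i; rw [hrr]; exact Nat.ceil_lt_add_one (mul_nonneg hRpos.le (hp0 i))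
  have hcard : ∑ i, rr i ≤ r := by
    have h1 : ((∑ i, rr i : ℕ) : ℝ) ≤ r := by
      push_cast
      calc ∑ i, (rr i : ℝ) ≤ ∑ i, (R * p i + 1) := Finset.sum_le_sum fun i _ => (hlt i).le
        _ = R * ∑ i, p i + (n + 1) := by
            rw [Finset.sum_add_distrib, Finset.mul_sum]; simp
        _ = r := by rw [hp1, hR]; ring
    exact_mod_cast h1
  have hne : Nonempty ((Σ i : Fin (n + 1), Fin (rr i)) ↪ Fin r) := by
    rw [Function.Embedding.nonempty_iff_card_le]
    simpa using hcard
  obtain ⟨e⟩ := hne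
  have hPe : ∀ (t : ℕ) (x : Σ i : Fin (n + 1), Fin (rr i)),
      Function.extend e (fun x : (Σ i : Fin (n + 1), Fin (rr i)) => p x.1 * G x.1 t / rr x.1)
        (fun _ => 0) (e x) = p x.1 * G x.1 t / rr x.1 := by
    intro t x
    exact e.injective.extend_apply _ _ x
  have hPn : ∀ (t : ℕ) (c : Fin r), (¬ ∃ x, e x = c) →
      Function.extend e (fun x : (Σ i : Fin (n + 1), Fin (rr i)) => p x.1 * G x.1 t / rr x.1)
        (fun _ => 0) c = 0 := by
    intro t c hc
    exact Function.extend_apply' _ _ _ hc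
  refine ⟨fun c t => Function.extend e
    (fun x : (Σ i : Fin (n + 1), Fin (rr i)) => p x.1 * G x.1 t / rr x.1) (fun _ => 0) c,
    ?_, ?_, ?_, ?_⟩
  · intro c t
    by_cases hc : ∃ x, e x = c
    · obtain ⟨x, rfl⟩ := hc
      show 0 ≤ Function.extend e _ _ (e x)
      rw [hPe t x]
      have := hp0 x.1
      have := (hG x.1).1 t
      positivity
    · exact (hPn t c hc).ge
  · intro t ht
    have h1 := Fintype.sum_of_injective e e.injective
      (fun x : (Σ i : Fin (n + 1), Fin (rr i)) => p x.1 * G x.1 t / rr x.1)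
      (fun c => Function.extend e
        (fun x : (Σ i : Fin (n + 1), Fin (rr i)) => p x.1 * G x.1 t / rr x.1) (fun _ => 0) c)
      (fun c hc => hPn t c (by simpa [Set.mem_range] using hc)) (fun x => (hPe t x).symm)
    rw [← h1, Fintype.sum_sigma, ← hsum t ht]
    refine Finset.sum_congr rfl fun i _ => ?_
    simp only [Finset.sum_const, Finset.card_univ, Fintype.card_fin, nsmul_eq_mul]
    by_cases h0 : rr i = 0
    · have h2 := hle i
      rw [h0] at h2
      push_cast at h2
      have h3 : p i = 0 := by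
        have := hp0 i
        nlinarith [mul_nonneg hRpos.le this]
      rw [h3]; simp
    · have h2 : (rr i : ℝ) ≠ 0 := by exact_mod_cast h0
      field_simp
  · intro c t ht
    by_cases hc : ∃ x, e x = c
    · obtain ⟨x, rfl⟩ := hc
      show Function.extend e _ _ (e x) = 0
      rw [hPe t x, (hG x.1).2.1 t ht]
      simp
    · exact hPn t c hc
  · intro c m
    by_cases hc : ∃ x, e x = c
    · obtain ⟨x, rfl⟩ := hc
      have h1 : ∑ u ∈ range (m + 1), Function.extend e
          (fun x : (Σ i : Fin (n + 1), Fin (rr i)) => p x.1 * G x.1 u / rr x.1)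
            (fun _ => 0) (e x) *
          Function.extend e
          (fun x : (Σ i : Fin (n + 1), Fin (rr i)) => p x.1 * G x.1 (m - u) / rr x.1)
            (fun _ => 0) (e x) =
          (p x.1 / rr x.1) ^ 2 * ∑ u ∈ range (m + 1), G x.1 u * G x.1 (m - u) := by
        rw [Finset.mul_sum]
        refine Finset.sum_congr rfl fun u _ => ?_
        rw [hPe, hPe]
        ring
      show ∑ u ∈ range (m + 1), Function.extend e _ _ (e x) * Function.extend e _ _ (e x) ≤ _
      rw [h1]
      have h2 := (hG x.1).2.2 m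
      have h3 : 0 ≤ ∑ u ∈ range (m + 1), G x.1 u * G x.1 (m - u) :=
        Finset.sum_nonneg fun u _ => mul_nonneg ((hG x.1).1 _) ((hG x.1).1 _)
      have h4 : p x.1 / rr x.1 ≤ 1 / R := by
        by_cases h0 : rr x.1 = 0
        · rw [h0]; simp; exact hRpos.le
        · have h5 : (0:ℝ) < rr x.1 := by
            have : 0 < rr x.1 := Nat.pos_of_ne_zero h0
            exact_mod_cast this
          rw [div_le_div_iff₀ h5 hRpos]
          have := hle x.1
          linarith
      have h5 : 0 ≤ p x.1 / rr x.1 := div_nonneg (hp0 _) (Nat.cast_nonneg _)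
      have h6 : (p x.1 / rr x.1) ^ 2 ≤ (1 / R) ^ 2 := by
        exact pow_le_pow_left₀ h5 h4 2
      calc (p x.1 / rr x.1) ^ 2 * ∑ u ∈ range (m + 1), G x.1 u * G x.1 (m - u)
          ≤ (1 / R) ^ 2 * (M * n) := mul_le_mul h6 h2 h3 (by positivity)
        _ = M * n / R ^ 2 := by field_simp
    · have h1 : ∑ u ∈ range (m + 1), Function.extend e
          (fun x : (Σ i : Fin (n + 1), Fin (rr i)) => p x.1 * G x.1 u / rr x.1)
            (fun _ => 0) c *
          Function.extend e
          (fun x : (Σ i : Fin (n + 1), Fin (rr i)) => p x.1 * G x.1 (m - u) / rr x.1)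
            (fun _ => 0) c = 0 := by
        refine Finset.sum_eq_zero fun u _ => ?_
        rw [hPn u c hc]
        simp
      show ∑ u ∈ range (m + 1), Function.extend e _ _ c * Function.extend e _ _ c ≤ _
      rw [h1]
      positivity

theorem ms_le_of_disc (n : ℕ) (hn : 0 < n) (M : ℝ) (hM : M ∈ Disc n) (r : ℕ) (hr : n + 1 < r) :
    ms r ≤ M / ((r:ℝ) - (n + 1)) ^ 2 := by
  have hM0 : 0 ≤ M := hM.1
  obtain ⟨P, h0, h1, h2, h3⟩ := table_of_disc n hn M hM r hr
  have hnr : (0:ℝ) < n := by exact_mod_cast hn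
  apply Real.sSup_le
  · intro ε hε
    have h := table_upper (by omega) P n hn h0 h1 h2 _ h3 ε hε
    refine h.trans (le_of_eq ?_)
    have hRpos : (0:ℝ) < (r:ℝ) - (n + 1) := by
      have : ((n + 1 : ℕ) : ℝ) < r := by exact_mod_cast hr
      push_cast at this
      linarith
    field_simp
  · positivity

theorem ms_le_one (r : ℕ) (hr : 0 < r) : (r:ℝ) ^ 2 * ms r ≤ 1 := by
  have hr0 : (0:ℝ) < r := by exact_mod_cast hr
  have h : ms r ≤ 1 / (r:ℝ) ^ 2 := by
    apply Real.sSup_le
    · intro ε hε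
      have h := table_upper hr (fun _ t => if t = 0 then 1 / (r:ℝ) else 0) 1 one_pos
        (fun c t => by split_ifs <;> positivity)
        (fun t ht => by
          have ht0 : t = 0 := by omega
          subst ht0
          simp
          field_simp)
        (fun c t ht => by rw [if_neg (by omega)]) (1 / (r:ℝ) ^ 2)
        (fun c m => by
          have h1 : ∀ u ∈ range (m + 1), (if u = 0 then 1 / (r:ℝ) else 0) *
              (if m - u = 0 then 1 / (r:ℝ) else 0) ≤ if u = 0 then 1 / (r:ℝ) ^ 2 else 0 := by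
            intro u _
            by_cases hu : u = 0
            · subst hu
              simp only [if_true]
              split_ifs
              · apply le_of_eq; field_simp
              · rw [mul_zero]; positivity
            · simp [hu]
          refine (Finset.sum_le_sum h1).trans ?_
          rw [Finset.sum_ite_eq' (range (m + 1)) 0]
          split_ifs
          · exact le_rfl
          · positivity) ε hε
      simpa using h
    · positivity
  calc (r:ℝ) ^ 2 * ms r ≤ (r:ℝ) ^ 2 * (1 / (r:ℝ) ^ 2) := by gcongr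
    _ = 1 := by field_simp

end Pool.Agent.H71.MS
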