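import Mathlib
import Pool.Agent.H71.MS.Defs
import Pool.Agent.H71.MS.Col

/-!
Row MS/Dis (PI helper71). The discrete quantity. You may cite the STATEMENTS of Col.lean
(`table_labelling`) and everything in Pool/Agent/H63/MSUpper*.lean (`realise`, `pairSet`, `pairSet_card`).

`MSn_le_n`, and the set in `MSn` is bounded by `n` (`r ≥ 1`), contains `0`.
`exists_good_colouring`: `MSn n r + 1` is not in the set.
`ms_le_MSn`: take such a `χ`, `ω a = some (χ (a + 1))`, `V = MSn n r`: for `k, c` the set of the `a + 1`,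
`a ∈ pairSet n ω c k`, is symmetric (`s = k + 2`), inside `Icc 1 n` and monochromatic, so the pair count is
`≤ MSn n r`; `realise` gives `ε ≤ MSn n r / n` for all attained `ε`; `Real.sSup_le`.
`MSn_le_of_labelling`: `ω` as in `table_labelling` with pair counts `≤ V` gives `MSn n r ≤ V`
(colour `t ↦ (ω (t - 1)).getD ⟨0, hr⟩`; a symmetric monochromatic `A ⊆ Icc 1 n` with sum `s` and colour
`c` injects by `a ↦ a - 1` into `pairSet n ω c (s - 2)`).
`MSn_le_table`: `L = log (3 n r)`, `δ = 2 √(L / n)`. If `δ > 1`: `r^2 * MSn / n ≤ r^2 ≤ 5 r^2 √(L/n)`.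
Otherwise `table_labelling` with `B = ⌈n / N⌉₊` (`B ≤ n / N + 1`, `n ≤ N * B`),
`2 n r exp (-(δ^2 n / 4)) = 2 n r / (3 n r) < 1`; so
`MSn ≤ (n / N + 1) W + 2 δ n + 1`, and `r^2 / n ≤ r^2 √(L / n)` because `L ≥ log 3 ≥ 1`, `1 / n ≤ √(1 / n)`.
-/

set_option autoImplicit false

open MeasureTheory Set Finset
open scoped ENNReal

namespace Pool.Agent.H71.MS

open Pool.Agent.H63.MS

theorem zero_mem (n r : ℕ) (hr : 0 < r) : (0:ℕ) ∈ {k : ℕ | ∀ χ : ℕ → Fin r, ∃ A : Finset ℕ,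
    A ⊆ Finset.Icc 1 n ∧ (∃ s : ℕ, ∀ a ∈ A, ∃ b ∈ A, a + b = s) ∧ (∃ i, ∀ a ∈ A, χ a = i) ∧ k ≤ A.card} := by
  intro χ
  exact ⟨∅, by simp, ⟨0, by simp⟩, ⟨⟨0, hr⟩, by simp⟩, by simp⟩

theorem mem_le (n r : ℕ) (hr : 0 < r) (k : ℕ) (hk : k ∈ {k : ℕ | ∀ χ : ℕ → Fin r, ∃ A : Finset ℕ,
    A ⊆ Finset.Icc 1 n ∧ (∃ s : ℕ, ∀ a ∈ A, ∃ b ∈ A, a + b = s) ∧ (∃ i, ∀ a ∈ A, χ a = i) ∧ k ≤ A.card}) :
    k ≤ n := by
  obtain ⟨A, hA, -, -, h⟩ := hk (fun _ => ⟨0, hr⟩)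
  refine h.trans ((Finset.card_le_card hA).trans ?_)
  simp

theorem MSn_le_n (n r : ℕ) (hr : 0 < r) : MSn n r ≤ n :=
  csSup_le ⟨0, zero_mem n r hr⟩ fun k hk => mem_le n r hr k hk

theorem MSn_mem (n r : ℕ) (hr : 0 < r) (χ : ℕ → Fin r) : ∃ A : Finset ℕ,
    A ⊆ Finset.Icc 1 n ∧ (∃ s : ℕ, ∀ a ∈ A, ∃ b ∈ A, a + b = s) ∧ (∃ i, ∀ a ∈ A, χ a = i) ∧ MSn n r ≤ A.card :=
  Nat.sSup_mem ⟨0, zero_mem n r hr⟩ ⟨n, fun k hk => mem_le n r hr k hk⟩ χ

theorem exists_good_colouring (n r : ℕ) (hr : 0 < r) : ∃ χ : ℕ → Fin r, ∀ A : Finset ℕ,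
    A ⊆ Finset.Icc 1 n → (∃ s : ℕ, ∀ a ∈ A, ∃ b ∈ A, a + b = s) → (∃ i, ∀ a ∈ A, χ a = i) → A.card ≤ MSn n r := by
  have h : MSn n r + 1 ∉ {k : ℕ | ∀ χ : ℕ → Fin r, ∃ A : Finset ℕ,
      A ⊆ Finset.Icc 1 n ∧ (∃ s : ℕ, ∀ a ∈ A, ∃ b ∈ A, a + b = s) ∧ (∃ i, ∀ a ∈ A, χ a = i) ∧ k ≤ A.card} := by
    refine notMem_of_csSup_lt ?_ ⟨n, fun k hk => mem_le n r hr k hk⟩
    exact Nat.lt_succ_self _
  rw [Set.mem_ofPred_eq] at h
  push Not at h
  obtain ⟨χ, hχ⟩ := h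
  refine ⟨χ, fun A h1 h2 h3 => ?_⟩
  have := hχ A h1 h2 h3
  omega

theorem ms_le_MSn (n r : ℕ) (hn : 0 < n) (hr : 0 < r) : ms r ≤ (MSn n r : ℝ) / n := by
  obtain ⟨χ, hχ⟩ := exists_good_colouring n r hr
  apply Real.sSup_le
  · intro ε hε
    refine realise hr n hn (fun a => some (χ (a + 1))) (fun a _ => by simp) (MSn n r) (by positivity) ?_ ε hε
    intro k c
    rw [← pairSet_card]
    have h1 : (pairSet n (fun a => some (χ (a + 1))) c k).card ≤ MSn n r := by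
      rw [← Finset.card_image_of_injective _ (add_left_injective 1)]
      refine hχ _ ?_ ⟨k + 2, ?_⟩ ⟨c, ?_⟩
      · intro b hb
        obtain ⟨a, ha, rfl⟩ := Finset.mem_image.mp hb
        simp only [pairSet, Finset.mem_filter, Finset.mem_range] at ha
        rw [Finset.mem_Icc]
        omega
      · intro b hb
        obtain ⟨a, ha, rfl⟩ := Finset.mem_image.mp hb
        simp only [pairSet, Finset.mem_filter, Finset.mem_range] at ha
        obtain ⟨ha0, ⟨ha1, ha2⟩, ha3, ha4⟩ := ha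
        refine ⟨k - a + 1, Finset.mem_image.mpr ⟨k - a, ?_, rfl⟩, ?_⟩
        · simp only [pairSet, Finset.mem_filter, Finset.mem_range]
          have h5 : k - (k - a) = a := by omega
          rw [h5]
          exact ⟨by omega, ⟨ha3, ha4⟩, ha1, ha2⟩
        · show a + 1 + (k - a + 1) = k + 2
          omega
      · intro b hb
        obtain ⟨a, ha, rfl⟩ := Finset.mem_image.mp hb
        simp only [pairSet, Finset.mem_filter, Finset.mem_range] at ha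
        exact Option.some.inj ha.2.1.2
    exact_mod_cast h1
  · positivity

theorem MSn_le_of_labelling (n r : ℕ) (hr : 0 < r) (ω : ℕ → Option (Fin r)) (hω : ∀ a < n, ω a ≠ none)
    (V : ℝ) (hV0 : 0 ≤ V)
    (hV : ∀ k : ℕ, ∀ c : Fin r,
      ∑ a ∈ Finset.range (k + 1), (if a < n ∧ ω a = some c then (1:ℝ) else 0) *
          (if k - a < n ∧ ω (k - a) = some c then (1:ℝ) else 0) ≤ V) : (MSn n r : ℝ) ≤ V := by
  obtain ⟨A, hA1, ⟨s, hs⟩, ⟨i, hi⟩, hcard⟩ := MSn_mem n r hr (fun t => (ω (t - 1)).getD ⟨0, hr⟩)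
  have hcol : ∀ a ∈ A, a - 1 < n ∧ ω (a - 1) = some i := by
    intro a ha
    have h1 := Finset.mem_Icc.mp (hA1 ha)
    have h2 : a - 1 < n := by omega
    refine ⟨h2, ?_⟩
    have h3 := hi a ha
    have h4 := hω _ h2
    cases h5 : ω (a - 1) with
    | none => exact absurd h5 h4
    | some j =>
      simp only [h5, Option.getD_some] at h3
      rw [h3]
  have h6 : A.card ≤ (pairSet n ω i (s - 2)).card := by
    refine Finset.card_le_card_of_injOn (fun a => a - 1) ?_ ?_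
    · intro a ha
      have ha' : a ∈ A := ha
      obtain ⟨b, hb, hab⟩ := hs a ha'
      have h1 := Finset.mem_Icc.mp (hA1 ha')
      have h2 := Finset.mem_Icc.mp (hA1 hb)
      have h3 : s - 2 - (a - 1) = b - 1 := by omega
      have h4 : a - 1 ∈ pairSet n ω i (s - 2) := by
        simp only [pairSet, Finset.mem_filter, Finset.mem_range]
        rw [h3]
        exact ⟨by omega, hcol a ha', hcol b hb⟩
      exact h4
    · intro a ha b hb hab
      have h1 := Finset.mem_Icc.mp (hA1 ha)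
      have h2 := Finset.mem_Icc.mp (hA1 hb)
      have hab' : a - 1 = b - 1 := hab
      omega
  have h7 := hV (s - 2) i
  rw [← pairSet_card] at h7
  refine le_trans ?_ h7
  exact_mod_cast hcard.trans h6

theorem MSn_le_table {r : ℕ} (hr : 0 < r) (P : Fin r → ℕ → ℝ) (N : ℕ) (hN : 0 < N)
    (hP0 : ∀ c t, 0 ≤ P c t) (hP1 : ∀ t < N, ∑ c, P c t = 1) (hPN : ∀ c t, N ≤ t → P c t = 0)
    (W : ℝ) (hW : ∀ c m, ∑ u ∈ range (m + 1), P c u * P c (m - u) ≤ W) (n : ℕ) (hn : 0 < n) :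
    (r:ℝ) ^ 2 * MSn n r / n ≤
      (r:ℝ) ^ 2 * W / N * (1 + (N:ℝ) / n) + 5 * (r:ℝ) ^ 2 * √(Real.log (3 * n * r) / n) := by
  have hn0 : (0:ℝ) < n := by exact_mod_cast hn
  have hn1 : (1:ℝ) ≤ n := by exact_mod_cast hn
  have hr1 : (1:ℝ) ≤ r := by exact_mod_cast hr
  have hr0 : (0:ℝ) < r := by linarith
  have hN0 : (0:ℝ) < N := by exact_mod_cast hN
  have hW0 : 0 ≤ W := by
    have h := hW ⟨0, hr⟩ 0
    refine le_trans ?_ h
    exact Finset.sum_nonneg fun u _ => mul_nonneg (hP0 _ _) (hP0 _ _)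
  set L := Real.log (3 * n * r) with hL
  have h3nr : (3:ℝ) ≤ 3 * n * r := by nlinarith [mul_le_mul hn1 hr1 (by norm_num) (by linarith)]
  have hL1 : 1 ≤ L := by
    rw [hL, Real.le_log_iff_exp_le (by linarith)]
    exact (Real.exp_one_lt_d9.le.trans (by norm_num)).trans h3nr
  have hLn : 0 < L / n := by positivity
  set q := √(L / n) with hq
  have hq0 : 0 < q := Real.sqrt_pos.mpr hLn
  have hq2 : q ^ 2 = L / n := Real.sq_sqrt hLn.le
  have hfirst : 0 ≤ (r:ℝ) ^ 2 * W / N * (1 + (N:ℝ) / n) := by positivity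
  by_cases hδ1 : 2 * q ≤ 1
  · -- the main case
    set B := ⌈(n:ℝ) / N⌉₊ with hB
    have hB0 : 0 < B := Nat.ceil_pos.mpr (by positivity)
    have hB1 : (n:ℝ) / N ≤ B := Nat.le_ceil _
    have hB2 : (B:ℝ) < (n:ℝ) / N + 1 := Nat.ceil_lt_add_one (by positivity)
    have hnB : n ≤ N * B := by
      have : (n:ℝ) ≤ N * B := by
        rw [div_le_iff₀ hN0] at hB1
        linarith
      exact_mod_cast this
    have hbig : 2 * (n:ℝ) * r * Real.exp (-((2 * q) ^ 2 * n / 4)) < 1 := by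
      have h1 : (2 * q) ^ 2 * n / 4 = L := by
        rw [mul_pow, hq2]; field_simp; norm_num
      rw [h1, Real.exp_neg, hL, Real.exp_log (by linarith)]
      rw [← div_eq_mul_inv, div_lt_one (by linarith)]
      nlinarith [mul_pos hn0 hr0]
    obtain ⟨ω, hω, hcount⟩ := table_labelling P N hN hP0 hP1 hPN W hW B hB0 n hnB (2 * q) (by linarith) hδ1 hbig
    have h2 := MSn_le_of_labelling n r hr ω hω (B * W + 2 * (2 * q) * n + 1) (by positivity) hcount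
    have h3 : (MSn n r : ℝ) ≤ ((n:ℝ) / N + 1) * W + 4 * q * n + 1 := by
      have : (B:ℝ) * W ≤ ((n:ℝ) / N + 1) * W := mul_le_mul_of_nonneg_right hB2.le hW0
      linarith
    have h4 : (1:ℝ) / n ≤ q := by
      rw [hq]
      apply Real.le_sqrt_of_sq_le
      rw [div_pow, one_pow, div_le_div_iff₀ (by positivity) hn0]
      nlinarith [mul_le_mul hn1 hL1 (by norm_num) (by linarith), mul_pos hn0 hn0]
    have h5 : (r:ℝ) ^ 2 * MSn n r / n ≤ (r:ℝ) ^ 2 * (((n:ℝ) / N + 1) * W + 4 * q * n + 1) / n := by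
      gcongr
    refine h5.trans ?_
    have h6 : (r:ℝ) ^ 2 * (((n:ℝ) / N + 1) * W + 4 * q * n + 1) / n =
        (r:ℝ) ^ 2 * W / N * (1 + (N:ℝ) / n) + (r:ℝ) ^ 2 * (4 * q + 1 / n) := by
      field_simp
      ring
    rw [h6]
    have h7 : (r:ℝ) ^ 2 * (4 * q + 1 / n) ≤ (r:ℝ) ^ 2 * (5 * q) := by
      apply mul_le_mul_of_nonneg_left _ (by positivity)
      linarith
    linarith
  · push Not at hδ1
    have h1 : (MSn n r : ℝ) ≤ n := by exact_mod_cast MSn_le_n n r hr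
    have h2 : (r:ℝ) ^ 2 * MSn n r / n ≤ (r:ℝ) ^ 2 := by
      rw [div_le_iff₀ hn0]
      exact mul_le_mul_of_nonneg_left h1 (by positivity)
    have h3 : (r:ℝ) ^ 2 ≤ 5 * (r:ℝ) ^ 2 * q := by
      nlinarith [mul_pos hr0 hr0]
    linarith

end Pool.Agent.H71.MS
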