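import Mathlib
import Pool.Agent.H71.MS.Defs

/-!
Row MS/Car (PI helper71). Caratheodory for the finite problem.

`disc_of_family`: work in `E = Fin n → ℝ` (finrank `n`). Let `S = {v : E | Feas n M (ext v)}` with
`ext v t = if h : t < n then v ⟨t, h⟩ else 0`. The family gives `(1 : E) ∈ convexHull ℝ S`
(the vectors `fun j => G i j`, note `ext` of it is `G i` by the support condition), e.g. by
`Convex.sum_mem` or `mem_convexHull_iff...`. By `convexHull_eq_union` there is an affinely independent
finite `t ⊆ S` with `1 ∈ convexHull ℝ t`; `t.card ≤ n + 1` by `AffineIndependent.card_le_finrank_succ`.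
By `Finset.mem_convexHull'` (or `Finset.mem_convexHull`) there are weights on `t`; transport them to
`Fin (n + 1)` (injection `t ↪ Fin (n + 1)` or `t.equivFin`; weight `0` and the zero vector, which is
`Feas n M 0` because `0 ≤ M`, at the remaining indices).
-/

set_option autoImplicit false

open MeasureTheory Set Finset
open scoped ENNReal

namespace Pool.Agent.H71.MS

theorem Feas.mono {n : ℕ} {M M' : ℝ} {G : ℕ → ℝ} (h : Feas n M G) (hM : M ≤ M') : Feas n M' G :=
  ⟨h.1, h.2.1, fun m => (h.2.2 m).trans (mul_le_mul_of_nonneg_right hM (Nat.cast_nonneg n))⟩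

theorem disc_mono {n : ℕ} {M M' : ℝ} (h : M ∈ Disc n) (hM : M ≤ M') : M' ∈ Disc n := by
  obtain ⟨h0, p, G, h1, h2, h3, h4⟩ := h
  exact ⟨h0.trans hM, p, G, h1, h2, fun i => (h3 i).mono hM, h4⟩

/-- extension of a vector by zero -/
noncomputable def ext0 {n : ℕ} (v : Fin n → ℝ) (t : ℕ) : ℝ := if h : t < n then v ⟨t, h⟩ else 0

theorem feas_zero {n : ℕ} {M : ℝ} (hM : 0 ≤ M) : Feas n M (fun _ => 0) :=
  ⟨fun _ => le_refl _, fun _ _ => rfl, fun m => by simp; positivity⟩

/-- Any finite family can be replaced by one with `n + 1` members. -/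
theorem disc_of_family (n : ℕ) (M : ℝ) (hM : 0 ≤ M) {k : ℕ} (p : Fin k → ℝ)
    (G : Fin k → ℕ → ℝ) (hp : ∀ i, 0 ≤ p i) (hp1 : ∑ i, p i = 1) (hG : ∀ i, Feas n M (G i))
    (h1 : ∀ t < n, ∑ i, p i * G i t = 1) : M ∈ Disc n := by
  classical
  set S : Set (Fin n → ℝ) := {v | Feas n M (ext0 v)} with hS
  have hext : ∀ i, ext0 (fun j : Fin n => G i j) = G i := by
    intro i
    funext t
    unfold ext0
    split_ifs with h
    · rfl
    · exact ((hG i).2.1 t (not_lt.1 h)).symm
  have hmem : (fun _ : Fin n => (1 : ℝ)) ∈ convexHull ℝ S := by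
    have h2 : ∑ i, p i • (fun j : Fin n => G i j) ∈ convexHull ℝ S :=
      (convex_convexHull ℝ S).sum_mem (fun i _ => hp i) hp1 (fun i _ =>
        subset_convexHull ℝ S (by
          rw [hS, Set.mem_setOf_eq, hext i]
          exact hG i))
    have h3 : ∑ i, p i • (fun j : Fin n => G i j) = fun _ : Fin n => (1 : ℝ) := by
      funext j
      rw [Finset.sum_apply]
      exact h1 j j.2
    rwa [h3] at h2
  rw [convexHull_eq_union] at hmem
  simp only [Set.mem_iUnion] at hmem
  obtain ⟨t, htS, hind, hx⟩ := hmem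
  have hcard : Fintype.card t ≤ Fintype.card (Fin (n + 1)) := by
    have h2 := hind.card_le_finrank_succ
    have h3 := Submodule.finrank_le (vectorSpan ℝ (Set.range ((↑) : t → (Fin n → ℝ))))
    rw [Module.finrank_fin_fun] at h3
    rw [Fintype.card_fin]
    omega
  obtain ⟨φ⟩ := Function.Embedding.nonempty_of_card_le hcard
  obtain ⟨w, hw0, hw1, hwx⟩ := Finset.mem_convexHull'.1 hx
  refine ⟨hM, Function.extend φ (fun y => w y.1) 0, Function.extend φ (fun y => ext0 y.1) 0, ?_, ?_,
    ?_, ?_⟩
  · intro i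
    by_cases hi : ∃ y, φ y = i
    · obtain ⟨y, rfl⟩ := hi
      rw [φ.injective.extend_apply]
      exact hw0 _ y.2
    · rw [Function.extend_apply' _ _ _ hi]
      exact le_refl _
  · rw [← hw1, ← Finset.sum_coe_sort t]
    refine (Fintype.sum_of_injective φ φ.injective _ _ ?_ ?_).symm
    · intro i hi
      rw [Function.extend_apply' _ _ _ hi]
      rfl
    · intro y
      rw [φ.injective.extend_apply]
  · intro i
    by_cases hi : ∃ y, φ y = i
    · obtain ⟨y, rfl⟩ := hi
      rw [φ.injective.extend_apply]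
      exact htS y.2
    · rw [Function.extend_apply' _ _ _ hi]
      exact feas_zero hM
  · intro s hs
    have h2 : ∑ y ∈ t, w y * y ⟨s, hs⟩ = 1 := by
      have h3 := congrFun hwx ⟨s, hs⟩
      rw [Finset.sum_apply] at h3
      exact h3
    rw [← h2, ← Finset.sum_coe_sort t]
    refine (Fintype.sum_of_injective φ φ.injective _ _ ?_ ?_).symm
    · intro i hi
      rw [Function.extend_apply' _ _ _ hi]
      simp
    · intro y
      rw [φ.injective.extend_apply, φ.injective.extend_apply]
      unfold ext0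
      rw [dif_pos hs]

end Pool.Agent.H71.MS
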