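import Mathlib
import Pool.Agent.H71.MS.Defs
import Pool.Agent.H71.MS.Car

/-!
Row MS/Sep (PI helper71). Separation for the finite problem (you may cite the STATEMENTS of Car.lean).

`separation`: let `M ∉ Disc n`. In `E = Fin n → ℝ` (or `EuclideanSpace`) let
`S = {v : E | Feas n M (ext v)}`, `ext v t = if h : t < n then v ⟨t, h⟩ else 0`. `S` is closed and
bounded (`v j ^ 2 ≤` the sum with `m = 2 * j`, which is `≤ M * n`), hence compact.
Its convex hull is the image of the compact set
`stdSimplex ℝ (Fin (n+1)) × (Fin (n+1) → S)` under the continuous map `(w, v) ↦ ∑ w i • v i`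
(`eq_pos_convex_span_of_mem_convexHull` + `AffineIndependent.card_le_finrank_succ` for one inclusion).
Then `geometric_hahn_banach_closed_point` (closed convex, point outside) gives a continuous linear
`f` and `u` with `f v < u` for `v ∈ D`, `u < f 1`. Write `f v = ∑ j, a j * v j`, `a j = f (Pi.single j 1)`.
Put `b j = max (a j) 0`. For `v ∈ S` the vector `v'` with `v' j = v j` if `0 ≤ a j` and `0` otherwise is
in `S`, so `∑ b j v j = f v' < u < f 1 = ∑ a j ≤ ∑ b j`. `0 ∈ S` gives `0 < u`, so `∑ b j > 0`; normalise: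
`h j = n * b j / ∑ b`.
-/

set_option autoImplicit false

open MeasureTheory Set Finset
open scoped ENNReal

namespace Pool.Agent.H71.MS

/-- Extension by zero. -/
noncomputable def sepExt (n : ℕ) (v : Fin n → ℝ) (t : ℕ) : ℝ := if h : t < n then v ⟨t, h⟩ else 0

theorem sepExt_lt {n : ℕ} (v : Fin n → ℝ) {t : ℕ} (h : t < n) : sepExt n v t = v ⟨t, h⟩ := dif_pos h

theorem sepExt_ge {n : ℕ} (v : Fin n → ℝ) {t : ℕ} (h : n ≤ t) : sepExt n v t = 0 :=
  dif_neg (by omega)

theorem sepExt_cont (n t : ℕ) : Continuous fun v : Fin n → ℝ => sepExt n v t := by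
  by_cases h : t < n
  · have : (fun v : Fin n → ℝ => sepExt n v t) = fun v => v ⟨t, h⟩ :=
      funext fun v => sepExt_lt v h
    rw [this]
    exact continuous_apply _
  · have : (fun v : Fin n → ℝ => sepExt n v t) = fun _ => (0 : ℝ) :=
      funext fun v => sepExt_ge v (by omega)
    rw [this]
    exact continuous_const

/-- The feasible vectors. -/
def sepS (n : ℕ) (M : ℝ) : Set (Fin n → ℝ) := {v | Feas n M (sepExt n v)}

theorem sepS_closed (n : ℕ) (M : ℝ) : IsClosed (sepS n M) := by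
  have he : sepS n M = (⋂ t : ℕ, {v | 0 ≤ sepExt n v t}) ∩
      ⋂ m : ℕ, {v | ∑ u ∈ range (m + 1), sepExt n v u * sepExt n v (m - u) ≤ M * n} := by
    ext v
    simp only [sepS, Feas, Set.mem_ofPred_eq, Set.mem_inter_iff, Set.mem_iInter]
    constructor
    · rintro ⟨h1, _, h3⟩
      exact ⟨h1, h3⟩
    · rintro ⟨h1, h3⟩
      exact ⟨h1, fun t ht => sepExt_ge v ht, h3⟩
  rw [he]
  refine IsClosed.inter (isClosed_iInter fun t => ?_) (isClosed_iInter fun m => ?_)
  · exact isClosed_le continuous_const (sepExt_cont n t)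
  · refine isClosed_le ?_ continuous_const
    exact continuous_finsetSum _ fun u _ => (sepExt_cont n u).mul (sepExt_cont n (m - u))

theorem feas_sq {n : ℕ} {M : ℝ} {G : ℕ → ℝ} (h : Feas n M G) (t : ℕ) : G t ^ 2 ≤ M * n := by
  refine le_trans ?_ (h.2.2 (2 * t))
  have h1 : G t * G (2 * t - t) ≤ ∑ u ∈ range (2 * t + 1), G u * G (2 * t - u) :=
    Finset.single_le_sum (f := fun u => G u * G (2 * t - u))
      (fun u _ => mul_nonneg (h.1 _) (h.1 _)) (Finset.mem_range.2 (by omega))
  have h2 : 2 * t - t = t := by omega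
  rw [h2] at h1
  rw [pow_two]
  exact h1

theorem sepS_compact (n : ℕ) (M : ℝ) : IsCompact (sepS n M) := by
  have h1 : IsCompact (Set.pi Set.univ fun _ : Fin n => Set.Icc (0 : ℝ) (Real.sqrt (M * n))) :=
    isCompact_univ_pi fun _ => isCompact_Icc
  refine h1.of_isClosed_subset (sepS_closed n M) fun v hv => ?_
  intro j _
  have h2 : Feas n M (sepExt n v) := hv
  have h3 := h2.1 j
  have h4 := feas_sq h2 j
  rw [sepExt_lt v j.2] at h3 h4
  exact ⟨h3, Real.le_sqrt_of_sq_le h4⟩

theorem feas_dom {n : ℕ} {M : ℝ} {G G' : ℕ → ℝ} (h : Feas n M G) (h0 : ∀ t, 0 ≤ G' t)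
    (h1 : ∀ t, G' t ≤ G t) : Feas n M G' := by
  refine ⟨h0, fun t ht => le_antisymm ((h1 t).trans (h.2.1 t ht).le) (h0 t), fun m => ?_⟩
  refine le_trans (Finset.sum_le_sum fun u _ => ?_) (h.2.2 m)
  exact mul_le_mul (h1 u) (h1 _) (h0 _) (h.1 u)

theorem zero_mem_sepS (n : ℕ) {M : ℝ} (hM : 0 ≤ M) : (0 : Fin n → ℝ) ∈ sepS n M := by
  have h0 : ∀ t, sepExt n (0 : Fin n → ℝ) t = 0 := by
    intro t
    by_cases h : t < n
    · rw [sepExt_lt _ h]; rfl
    · exact sepExt_ge _ (by omega)
  refine ⟨fun t => (h0 t).ge, fun t _ => h0 t, fun m => ?_⟩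
  have : ∑ u ∈ range (m + 1), sepExt n (0 : Fin n → ℝ) u * sepExt n (0 : Fin n → ℝ) (m - u) = 0 :=
    Finset.sum_eq_zero fun u _ => by rw [h0, zero_mul]
  rw [this]
  positivity

/-- The averages of `n + 1` feasible vectors. -/
def sepD (n : ℕ) (M : ℝ) : Set (Fin n → ℝ) :=
  (fun q : (Fin (n + 1) → ℝ) × (Fin (n + 1) → Fin n → ℝ) => ∑ i, q.1 i • q.2 i) ''
    (stdSimplex ℝ (Fin (n + 1)) ×ˢ Set.pi Set.univ fun _ => sepS n M)

theorem sepD_compact (n : ℕ) (M : ℝ) : IsCompact (sepD n M) := by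
  refine IsCompact.image ((isCompact_stdSimplex ℝ (Fin (n + 1))).prod
    (isCompact_univ_pi fun _ => sepS_compact n M)) ?_
  refine continuous_finsetSum _ fun i _ => ?_
  exact ((continuous_apply i).comp continuous_fst).smul ((continuous_apply i).comp continuous_snd)

theorem sepD_eq (n : ℕ) {M : ℝ} (hM : 0 ≤ M) : sepD n M = convexHull ℝ (sepS n M) := by
  apply Set.Subset.antisymm
  · rintro _ ⟨⟨w, v⟩, ⟨hw, hv⟩, rfl⟩
    refine (convex_convexHull ℝ (sepS n M)).sum_mem (fun i _ => hw.1 i) hw.2 fun i _ => ?_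
    exact subset_convexHull ℝ _ (hv i (Set.mem_univ i))
  · intro x hx
    obtain ⟨ι, hι, z, w, hz, hai, hw, hw1, hx'⟩ := eq_pos_convex_span_of_mem_convexHull hx
    have hcard : Fintype.card ι ≤ n + 1 := by
      have := hai.card_le_finrank_succ
      have h2 : Module.finrank ℝ (vectorSpan ℝ (Set.range z)) ≤ n := by
        have h3 := Submodule.finrank_le (vectorSpan ℝ (Set.range z))
        rwa [Module.finrank_fin_fun] at h3
      omega
    obtain ⟨φ⟩ : Nonempty (ι ↪ Fin (n + 1)) :=
      Function.Embedding.nonempty_of_card_le (by rw [Fintype.card_fin]; exact hcard)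
    classical
    let W : Fin (n + 1) → ℝ := fun j => ∑ i, if φ i = j then w i else 0
    let V : Fin (n + 1) → Fin n → ℝ := fun j =>
      if h : ∃ i, φ i = j then z h.choose else 0
    have hV : ∀ i, V (φ i) = z i := by
      intro i
      have h : ∃ i', φ i' = φ i := ⟨i, rfl⟩
      have h2 : h.choose = i := φ.injective h.choose_spec
      simp only [V, dif_pos h, h2]
    have hsum : ∀ (F : Fin (n + 1) → Fin n → ℝ), ∑ j, W j • F j = ∑ i, w i • F (φ i) := by
      intro F
      simp only [W, Finset.sum_smul]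
      rw [Finset.sum_comm]
      refine Finset.sum_congr rfl fun i _ => ?_
      simp only [ite_smul, zero_smul, Finset.sum_ite_eq, Finset.mem_univ, if_true]
    refine ⟨(W, V), ⟨⟨fun j => ?_, ?_⟩, fun j _ => ?_⟩, ?_⟩
    · exact Finset.sum_nonneg fun i _ => by split_ifs; exacts [(hw i).le, le_rfl]
    · simp only [W]
      rw [Finset.sum_comm]
      simp only [Finset.sum_ite_eq, Finset.mem_univ, if_true]
      exact hw1
    · by_cases h : ∃ i, φ i = j
      · simp only [V, dif_pos h]
        exact hz (Set.mem_range_self _)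
      · simp only [V, dif_neg h]
        exact zero_mem_sepS n hM
    · show ∑ j, W j • V j = x
      rw [hsum V, ← hx']
      exact Finset.sum_congr rfl fun i _ => by rw [hV i]

theorem one_notMem_sepD (n : ℕ) {M : ℝ} (hM : 0 ≤ M) (hnot : M ∉ Disc n) :
    (fun _ => 1 : Fin n → ℝ) ∉ sepD n M := by
  rintro ⟨⟨w, v⟩, ⟨hw, hv⟩, he⟩
  apply hnot
  refine ⟨hM, w, fun i => sepExt n (v i), fun i => hw.1 i, hw.2,
    fun i => hv i (Set.mem_univ i), fun t ht => ?_⟩
  have h1 := congrFun he ⟨t, ht⟩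
  simp only [Finset.sum_apply, Pi.smul_apply, smul_eq_mul] at h1
  rw [← h1]
  refine Finset.sum_congr rfl fun i _ => ?_
  show w i * sepExt n (v i) t = w i * v i ⟨t, ht⟩
  rw [sepExt_lt _ ht]

theorem separation (n : ℕ) (hn : 0 < n) (M : ℝ) (hM : 0 ≤ M) (hnot : M ∉ Disc n) :
    ∃ h : ℕ → ℝ, (∀ j, 0 ≤ h j) ∧ ∑ j ∈ range n, h j = n ∧
      ∀ G : ℕ → ℝ, Feas n M G → ∑ j ∈ range n, h j * G j < n := by
  have hcv : Convex ℝ (sepD n M) := by rw [sepD_eq n hM]; exact convex_convexHull ℝ _
  obtain ⟨f, u, hf1, hf2⟩ := geometric_hahn_banach_closed_point hcv (sepD_compact n M).isClosed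
    (one_notMem_sepD n hM hnot)
  have hfS : ∀ v ∈ sepS n M, f v < u := by
    intro v hv
    apply hf1
    rw [sepD_eq n hM]
    exact subset_convexHull ℝ _ hv
  obtain ⟨a, ha⟩ : ∃ a : Fin n → ℝ, ∀ v : Fin n → ℝ, f v = ∑ j, a j * v j := by
    refine ⟨fun i => f fun j => if i = j then 1 else 0, fun v => ?_⟩
    have h1 := LinearMap.pi_apply_eq_sum_univ (f : (Fin n → ℝ) →ₗ[ℝ] ℝ) v
    simp only [ContinuousLinearMap.coe_coe, smul_eq_mul] at h1
    rw [h1]
    exact Finset.sum_congr rfl fun i _ => mul_comm _ _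
  have hu0 : 0 < u := by
    have := hfS 0 (zero_mem_sepS n hM)
    rwa [map_zero] at this
  have hB : u < ∑ j, max (a j) 0 := by
    refine lt_of_lt_of_le hf2 ?_
    rw [ha]
    exact Finset.sum_le_sum fun j _ => by rw [mul_one]; exact le_max_left _ _
  have hS : ∀ v ∈ sepS n M, ∑ j, max (a j) 0 * v j < u := by
    intro v hv
    have hv' : Feas n M (sepExt n v) := hv
    have hv0 : ∀ j, 0 ≤ v j := by
      intro j
      have := hv'.1 j
      rwa [sepExt_lt v j.2] at this
    have h1 : (fun j => if 0 ≤ a j then v j else 0) ∈ sepS n M := by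
      refine feas_dom hv' (fun t => ?_) fun t => ?_
      · by_cases ht : t < n
        · rw [sepExt_lt _ ht]
          split_ifs
          · exact hv0 _
          · exact le_rfl
        · rw [sepExt_ge _ (by omega)]
      · by_cases ht : t < n
        · rw [sepExt_lt _ ht, sepExt_lt _ ht]
          split_ifs
          · exact le_rfl
          · exact hv0 _
        · rw [sepExt_ge _ (by omega), sepExt_ge _ (by omega)]
    have h2 := hfS _ h1
    rw [ha] at h2
    refine lt_of_le_of_lt (le_of_eq (Finset.sum_congr rfl fun j _ => ?_)) h2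
    by_cases h3 : 0 ≤ a j
    · rw [if_pos h3, max_eq_left h3]
    · rw [if_neg h3, max_eq_right (by linarith), zero_mul, mul_zero]
  obtain ⟨B, hBd⟩ : ∃ B : ℝ, B = ∑ j, max (a j) 0 := ⟨_, rfl⟩
  rw [← hBd] at hB
  have hB0 : 0 < B := hu0.trans hB
  have hn0 : (0 : ℝ) < n := by exact_mod_cast hn
  have hsr : ∀ F : ℕ → ℝ, ∑ j ∈ range n, F j = ∑ j : Fin n, F j := fun F =>
    (Fin.sum_univ_eq_sum_range F n).symm
  refine ⟨fun t => n * sepExt n (fun j => max (a j) 0) t / B, fun t => ?_, ?_, fun G hG => ?_⟩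
  · refine div_nonneg (mul_nonneg hn0.le ?_) hB0.le
    by_cases ht : t < n
    · rw [sepExt_lt _ ht]; exact le_max_right _ _
    · rw [sepExt_ge _ (by omega)]
  · rw [hsr]
    have h1 : ∀ j : Fin n, (n : ℝ) * sepExt n (fun j => max (a j) 0) j / B
        = n / B * max (a j) 0 := by
      intro j
      rw [sepExt_lt _ j.2]
      ring
    rw [Finset.sum_congr rfl fun j _ => h1 j, ← Finset.mul_sum, ← hBd]
    field_simp
  · have hv : (fun j : Fin n => G j) ∈ sepS n M := by
      have : sepExt n (fun j : Fin n => G j) = G := by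
        funext t
        by_cases ht : t < n
        · rw [sepExt_lt _ ht]
        · rw [sepExt_ge _ (by omega), hG.2.1 t (by omega)]
      show Feas n M (sepExt n (fun j : Fin n => G j))
      rw [this]
      exact hG
    have h2 := hS _ hv
    rw [hsr]
    have h1 : ∀ j : Fin n, (n : ℝ) * sepExt n (fun j => max (a j) 0) j / B * G j
        = n / B * (max (a j) 0 * G j) := by
      intro j
      rw [sepExt_lt _ j.2]
      ring
    rw [Finset.sum_congr rfl fun j _ => h1 j, ← Finset.mul_sum]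
    calc (n : ℝ) / B * ∑ j : Fin n, max (a j) 0 * G j < n / B * B := by
          apply mul_lt_mul_of_pos_left (h2.trans hB) (by positivity)
      _ = n := by field_simp

end Pool.Agent.H71.MS
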