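import Mathlib
import Pool.Agent.H71.MS.Defs

/-! Mass in a strip `x + y ∈ [A, B)` and the window smoothing of a function with small
autoconvolution. -/

set_option autoImplicit false

open MeasureTheory Set Finset
open scoped ENNReal

namespace Pool.Agent.H71.MS

lemma strip_le (g : ℝ → ℝ≥0∞) (hg : Measurable g) (M : ℝ≥0∞)
    (hM : ∀ s, ∫⁻ x, g x * g (s - x) ≤ M) (A B : ℝ) :
    ∫⁻ x, ∫⁻ y, g x * g y * (Set.Ico A B).indicator 1 (x + y) ≤ M * ENNReal.ofReal (B - A) := by
  have h1 : ∀ x, ∫⁻ y, g x * g y * (Set.Ico A B).indicator 1 (x + y) =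
      ∫⁻ s, g x * g (s - x) * (Set.Ico A B).indicator 1 s := by
    intro x
    have h := lintegral_sub_right_eq_self (μ := (volume : Measure ℝ))
      (fun y => g x * g y * (Set.Ico A B).indicator 1 (x + y)) x
    rw [← h]
    congr 1
    ext s
    have : x + (s - x) = s := by ring
    rw [this]
  simp_rw [h1]
  rw [lintegral_lintegral_swap]
  · have h2 : ∀ s, ∫⁻ x, g x * g (s - x) * (Set.Ico A B).indicator 1 s =
        (Set.Ico A B).indicator 1 s * ∫⁻ x, g x * g (s - x) := by
      intro s
      rw [← lintegral_const_mul _ (by fun_prop)]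
      congr 1
      ext x
      ring
    simp_rw [h2]
    calc ∫⁻ s, (Set.Ico A B).indicator 1 s * ∫⁻ x, g x * g (s - x)
        ≤ ∫⁻ s, (Set.Ico A B).indicator 1 s * M := by
          apply lintegral_mono
          intro s
          exact mul_le_mul_right (hM s) _
      _ = M * ENNReal.ofReal (B - A) := by
          rw [lintegral_mul_const _ (measurable_one.indicator measurableSet_Ico),
            lintegral_indicator_one measurableSet_Ico, Real.volume_Ico, mul_comm]
  · apply Measurable.aemeasurable
    apply Measurable.mul
    · fun_prop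
    · exact (measurable_one.indicator measurableSet_Ico).comp measurable_snd

end Pool.Agent.H71.MS
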