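import Mathlib
import Pool.Agent.H71.MS.Defs
import Pool.Agent.H71.MS.Strip

/-! Window smoothing of a function with small autoconvolution. -/

set_option autoImplicit false

open MeasureTheory Set Finset
open scoped ENNReal

namespace Pool.Agent.H71.MS

lemma win_split (g : ℝ → ℝ≥0∞) (N : ℝ) (hN : 0 < N) (u l : ℕ) :
    ∫⁻ x in Set.Ico ((u:ℝ) / N) (((u:ℝ) + l) / N), g x =
      ∑ a ∈ range l, ∫⁻ x in Set.Ico (((u + a : ℕ):ℝ) / N) ((((u + a : ℕ):ℝ) + 1) / N), g x := by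
  induction l with
  | zero => simp
  | succ l ih =>
    have hset : Set.Ico ((u:ℝ) / N) (((u:ℝ) + (l + 1 : ℕ)) / N) =
        Set.Ico ((u:ℝ) / N) (((u:ℝ) + l) / N) ∪
          Set.Ico (((u + l : ℕ):ℝ) / N) ((((u + l : ℕ):ℝ) + 1) / N) := by
      have e1 : ((u + l : ℕ):ℝ) = (u:ℝ) + l := by push_cast; ring
      have e2 : (u:ℝ) + (l + 1 : ℕ) = (u:ℝ) + l + 1 := by push_cast; ring
      have hl0 : (0:ℝ) ≤ l := Nat.cast_nonneg l
      rw [e1, e2, Set.Ico_union_Ico_eq_Ico]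
      · exact div_le_div_of_nonneg_right (by linarith) hN.le
      · exact div_le_div_of_nonneg_right (by linarith) hN.le
    rw [Finset.sum_range_succ, ← ih, hset, lintegral_union measurableSet_Ico]
    · rw [Set.disjoint_left]
      intro x hx hx2
      have := hx.2
      have h2 := hx2.1
      push_cast at h2
      linarith

lemma ind_sum_le (N : ℝ) (hN : 0 < N) (l m a : ℕ) (x y : ℝ) :
    ∑ u ∈ range (m + 1), (Set.Ico (((u + a : ℕ):ℝ) / N) ((((u + a : ℕ):ℝ) + 1) / N)).indicator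
        (1 : ℝ → ℝ≥0∞) x *
      (Set.Ico (((m - u : ℕ):ℝ) / N) ((((m - u : ℕ):ℝ) + l) / N)).indicator (1 : ℝ → ℝ≥0∞) y ≤
    (Set.Ico (((m + a : ℕ):ℝ) / N) ((((m + a : ℕ):ℝ) + (l + 1)) / N)).indicator
        (1 : ℝ → ℝ≥0∞) (x + y) := by
  by_cases h : ∃ u ∈ range (m + 1), x ∈ Set.Ico (((u + a : ℕ):ℝ) / N) ((((u + a : ℕ):ℝ) + 1) / N) ∧
      y ∈ Set.Ico (((m - u : ℕ):ℝ) / N) ((((m - u : ℕ):ℝ) + l) / N)
  · obtain ⟨u, hu, hx, hy⟩ := h
    rw [Finset.sum_eq_single_of_mem u hu]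
    · have hu' : u ≤ m := by rw [Finset.mem_range] at hu; omega
      have hxy : x + y ∈ Set.Ico (((m + a : ℕ):ℝ) / N) ((((m + a : ℕ):ℝ) + (l + 1)) / N) := by
        obtain ⟨hx1, hx2⟩ := hx
        obtain ⟨hy1, hy2⟩ := hy
        rw [div_le_iff₀ hN] at hx1 hy1
        rw [lt_div_iff₀ hN] at hx2 hy2
        rw [Nat.cast_sub hu'] at hy1 hy2
        push_cast at *
        constructor
        · rw [div_le_iff₀ hN]; linarith
        · rw [lt_div_iff₀ hN]; linarith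
      rw [Set.indicator_of_mem hxy, Set.indicator_of_mem hx, Set.indicator_of_mem hy]
      simp
    · intro v hv hvu
      have : x ∉ Set.Ico (((v + a : ℕ):ℝ) / N) ((((v + a : ℕ):ℝ) + 1) / N) := by
        intro hx'
        apply hvu
        obtain ⟨hx1, hx2⟩ := hx
        obtain ⟨hx3, hx4⟩ := hx'
        rw [div_le_iff₀ hN] at hx1 hx3
        rw [lt_div_iff₀ hN] at hx2 hx4
        have h1 : ((v + a : ℕ):ℝ) < ((u + a + 1 : ℕ):ℝ) := by push_cast at *; linarith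
        have h2 : ((u + a : ℕ):ℝ) < ((v + a + 1 : ℕ):ℝ) := by push_cast at *; linarith
        have h3 : v + a < u + a + 1 := by exact_mod_cast h1
        have h4 : u + a < v + a + 1 := by exact_mod_cast h2
        omega
      rw [Set.indicator_of_notMem this, zero_mul]
  · rw [Finset.sum_eq_zero]
    · exact zero_le
    · intro u hu
      by_cases hx : x ∈ Set.Ico (((u + a : ℕ):ℝ) / N) ((((u + a : ℕ):ℝ) + 1) / N)
      · have hy : y ∉ Set.Ico (((m - u : ℕ):ℝ) / N) ((((m - u : ℕ):ℝ) + l) / N) :=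
          fun hy => h ⟨u, hu, hx, hy⟩
        rw [Set.indicator_of_notMem hy, mul_zero]
      · rw [Set.indicator_of_notMem hx, zero_mul]

lemma row_le (g : ℝ → ℝ≥0∞) (hg : Measurable g) (M : ℝ≥0∞)
    (hM : ∀ s, ∫⁻ x, g x * g (s - x) ≤ M) (N : ℝ) (hN : 0 < N) (l m a : ℕ) :
    ∑ u ∈ range (m + 1), (∫⁻ x in Set.Ico (((u + a : ℕ):ℝ) / N) ((((u + a : ℕ):ℝ) + 1) / N), g x) *
      (∫⁻ x in Set.Ico (((m - u : ℕ):ℝ) / N) ((((m - u : ℕ):ℝ) + l) / N), g x) ≤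
      M * ENNReal.ofReal ((l + 1) / N) := by
  have h1 : ∀ u ∈ range (m + 1),
      (∫⁻ x in Set.Ico (((u + a : ℕ):ℝ) / N) ((((u + a : ℕ):ℝ) + 1) / N), g x) *
      (∫⁻ x in Set.Ico (((m - u : ℕ):ℝ) / N) ((((m - u : ℕ):ℝ) + l) / N), g x) =
      ∫⁻ x, ∫⁻ y, g x * g y *
        ((Set.Ico (((u + a : ℕ):ℝ) / N) ((((u + a : ℕ):ℝ) + 1) / N)).indicator
        (1 : ℝ → ℝ≥0∞) x *
      (Set.Ico (((m - u : ℕ):ℝ) / N) ((((m - u : ℕ):ℝ) + l) / N)).indicator (1 : ℝ → ℝ≥0∞) y) := by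
    intro u _
    rw [← lintegral_indicator measurableSet_Ico, ← lintegral_indicator measurableSet_Ico,
      ← lintegral_mul_const _ (hg.indicator measurableSet_Ico)]
    congr 1
    ext x
    rw [← lintegral_const_mul _ (hg.indicator measurableSet_Ico)]
    congr 1
    ext y
    by_cases hx : x ∈ Set.Ico (((u + a : ℕ):ℝ) / N) ((((u + a : ℕ):ℝ) + 1) / N)
    · by_cases hy : y ∈ Set.Ico (((m - u : ℕ):ℝ) / N) ((((m - u : ℕ):ℝ) + l) / N)
      · rw [Set.indicator_of_mem hx, Set.indicator_of_mem hy, Set.indicator_of_mem hx,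
          Set.indicator_of_mem hy]
        simp
      · rw [Set.indicator_of_notMem hy, Set.indicator_of_notMem hy]
        simp
    · rw [Set.indicator_of_notMem hx, Set.indicator_of_notMem hx]
      simp
  rw [Finset.sum_congr rfl h1]
  have hmeas : ∀ u ∈ range (m + 1), Measurable (fun z : ℝ × ℝ => g z.1 * g z.2 *
        ((Set.Ico (((u + a : ℕ):ℝ) / N) ((((u + a : ℕ):ℝ) + 1) / N)).indicator
        (1 : ℝ → ℝ≥0∞) z.1 *
      (Set.Ico (((m - u : ℕ):ℝ) / N) ((((m - u : ℕ):ℝ) + l) / N)).indicator (1 : ℝ → ℝ≥0∞) z.2)) := by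
    intro u _
    apply Measurable.mul (by fun_prop)
    apply Measurable.mul
    · exact (measurable_one.indicator measurableSet_Ico).comp measurable_fst
    · exact (measurable_one.indicator measurableSet_Ico).comp measurable_snd
  rw [← lintegral_finsetSum _ (fun u hu => (hmeas u hu).lintegral_prod_right')]
  have h2 : ∀ x, ∑ u ∈ range (m + 1), ∫⁻ y, g x * g y *
        ((Set.Ico (((u + a : ℕ):ℝ) / N) ((((u + a : ℕ):ℝ) + 1) / N)).indicator
        (1 : ℝ → ℝ≥0∞) x *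
      (Set.Ico (((m - u : ℕ):ℝ) / N) ((((m - u : ℕ):ℝ) + l) / N)).indicator (1 : ℝ → ℝ≥0∞) y) ≤
      ∫⁻ y, g x * g y * (Set.Ico (((m + a : ℕ):ℝ) / N) ((((m + a : ℕ):ℝ) + (l + 1)) / N)).indicator
        (1 : ℝ → ℝ≥0∞) (x + y) := by
    intro x
    have hm2 : ∀ u ∈ range (m + 1), Measurable (fun y : ℝ => g x * g y *
        ((Set.Ico (((u + a : ℕ):ℝ) / N) ((((u + a : ℕ):ℝ) + 1) / N)).indicator
        (1 : ℝ → ℝ≥0∞) x *
      (Set.Ico (((m - u : ℕ):ℝ) / N) ((((m - u : ℕ):ℝ) + l) / N)).indicator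
        (1 : ℝ → ℝ≥0∞) y)) := fun u hu => (hmeas u hu).comp measurable_prodMk_left
    rw [← lintegral_finsetSum _ hm2]
    apply lintegral_mono
    intro y
    simp only
    rw [← Finset.mul_sum]
    gcongr
    exact ind_sum_le N hN l m a x y
  refine (lintegral_mono h2).trans ?_
  refine (strip_le g hg M hM _ _).trans (le_of_eq ?_)
  congr 2
  ring

lemma win_conv_le (g : ℝ → ℝ≥0∞) (hg : Measurable g) (M : ℝ≥0∞)
    (hM : ∀ s, ∫⁻ x, g x * g (s - x) ≤ M) (N : ℝ) (hN : 0 < N) (l m : ℕ) :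
    ∑ u ∈ range (m + 1), (∫⁻ x in Set.Ico ((u:ℝ) / N) (((u:ℝ) + l) / N), g x) *
      (∫⁻ x in Set.Ico (((m - u : ℕ):ℝ) / N) ((((m - u : ℕ):ℝ) + l) / N), g x) ≤
      l * (M * ENNReal.ofReal ((l + 1) / N)) := by
  have h1 : ∀ u ∈ range (m + 1), (∫⁻ x in Set.Ico ((u:ℝ) / N) (((u:ℝ) + l) / N), g x) *
      (∫⁻ x in Set.Ico (((m - u : ℕ):ℝ) / N) ((((m - u : ℕ):ℝ) + l) / N), g x) =
      ∑ a ∈ range l, (∫⁻ x in Set.Ico (((u + a : ℕ):ℝ) / N) ((((u + a : ℕ):ℝ) + 1) / N), g x) *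
      (∫⁻ x in Set.Ico (((m - u : ℕ):ℝ) / N) ((((m - u : ℕ):ℝ) + l) / N), g x) := by
    intro u _
    rw [win_split g N hN u l, Finset.sum_mul]
  rw [Finset.sum_congr rfl h1, Finset.sum_comm]
  calc _ ≤ ∑ _a ∈ range l, M * ENNReal.ofReal ((l + 1) / N) :=
        Finset.sum_le_sum fun a _ => row_le g hg M hM N hN l m a
    _ = l * (M * ENNReal.ofReal ((l + 1) / N)) := by
        rw [Finset.sum_const, Finset.card_range, nsmul_eq_mul]

end Pool.Agent.H71.MS
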