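import Mathlib
import Pool.Agent.H71.MS.Defs
import Pool.Agent.H71.MS.Smooth
import Pool.Agent.H71.MS.Car

/-! Window smoothing: from functions to vectors. -/

set_option autoImplicit false

open MeasureTheory Set Finset
open scoped ENNReal

namespace Pool.Agent.H71.MS

/-- The window smoothing of `g`: `n` values, windows of `l` cells of length `1 / (n + l - 1)`. -/
noncomputable def smooth (n l : ℕ) (g : ℝ → ℝ≥0∞) (j : ℕ) : ℝ :=
  if j < n then (((n:ℝ) + l - 1) / l) *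
    (∫⁻ x in Set.Ico ((j:ℝ) / ((n:ℝ) + l - 1)) (((j:ℝ) + l) / ((n:ℝ) + l - 1)), g x).toReal else 0

lemma Npos {n l : ℕ} (hn : 0 < n) (hl : 0 < l) : (0:ℝ) < (n:ℝ) + l - 1 := by
  have h1 : (1:ℝ) ≤ n := by exact_mod_cast hn
  have h2 : (1:ℝ) ≤ l := by exact_mod_cast hl
  linarith

lemma win_ne_top (g : ℝ → ℝ≥0∞) (M : ℝ) (hg : AutoLE M g) (N : ℝ) (hN : 0 < N) (l j : ℕ) :
    ∫⁻ x in Set.Ico ((j:ℝ) / N) (((j:ℝ) + l) / N), g x ≠ ⊤ := by
  intro htop
  have h := win_conv_le g hg.1 (ENNReal.ofReal M) hg.2.2 N hN l (2 * j)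
  have h2 := Finset.single_le_sum (f := fun u : ℕ =>
      (∫⁻ x in Set.Ico ((u:ℝ) / N) (((u:ℝ) + l) / N), g x) *
      (∫⁻ x in Set.Ico (((2 * j - u : ℕ):ℝ) / N) ((((2 * j - u : ℕ):ℝ) + l) / N), g x))
      (fun u _ => zero_le) (show j ∈ range (2 * j + 1) by rw [Finset.mem_range]; omega)
  have e : 2 * j - j = j := by omega
  rw [e, htop] at h2
  have h3 := h2.trans h
  rw [ENNReal.top_mul_top, top_le_iff] at h3
  have : (l:ℝ≥0∞) * (ENNReal.ofReal M * ENNReal.ofReal ((l + 1) / N)) < ⊤ :=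
    ENNReal.mul_lt_top (ENNReal.natCast_lt_top l) (ENNReal.mul_lt_top ENNReal.ofReal_lt_top
      ENNReal.ofReal_lt_top)
  exact this.ne h3

theorem smooth_feas (n l : ℕ) (hn : 0 < n) (hl : 0 < l) (M : ℝ) (hM : 0 ≤ M) (g : ℝ → ℝ≥0∞)
    (hg : AutoLE M g) :
    Feas n ((1 + 1 / (l:ℝ)) * (1 + ((l:ℝ) - 1) / n) * M) (smooth n l g) := by
  have hN := Npos hn hl
  set N : ℝ := (n:ℝ) + l - 1 with hNdef
  have hl0 : (0:ℝ) < l := by exact_mod_cast hl
  have hn0 : (0:ℝ) < n := by exact_mod_cast hn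
  set w : ℕ → ℝ≥0∞ := fun j => ∫⁻ x in Set.Ico ((j:ℝ) / N) (((j:ℝ) + l) / N), g x with hw
  have hwt : ∀ j, w j ≠ ⊤ := fun j => win_ne_top g M hg N hN l j
  have hsm : ∀ j, smooth n l g j ≤ N / l * (w j).toReal := by
    intro j
    unfold smooth
    split_ifs
    · exact le_rfl
    · positivity
  have hs0 : ∀ j, 0 ≤ smooth n l g j := by
    intro j
    unfold smooth
    rw [← hNdef]
    split_ifs
    · positivity
    · exact le_rfl
  refine ⟨hs0, ?_, ?_⟩
  · intro t ht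
    unfold smooth
    rw [if_neg (by omega)]
  · intro m
    have h1 : ∑ u ∈ range (m + 1), smooth n l g u * smooth n l g (m - u) ≤
        (N / l) ^ 2 * ∑ u ∈ range (m + 1), (w u).toReal * (w (m - u)).toReal := by
      rw [Finset.mul_sum]
      apply Finset.sum_le_sum
      intro u _
      calc smooth n l g u * smooth n l g (m - u) ≤ (N / l * (w u).toReal) * (N / l * (w (m - u)).toReal) :=
            mul_le_mul (hsm _) (hsm _) (hs0 _) (by positivity)
        _ = _ := by ring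
    have h2 : ∑ u ∈ range (m + 1), (w u).toReal * (w (m - u)).toReal ≤ l * (M * ((l + 1) / N)) := by
      have h3 : (∑ u ∈ range (m + 1), w u * w (m - u)).toReal =
          ∑ u ∈ range (m + 1), (w u).toReal * (w (m - u)).toReal := by
        rw [ENNReal.toReal_sum (fun u _ => ENNReal.mul_ne_top (hwt _) (hwt _))]
        simp_rw [ENNReal.toReal_mul]
      rw [← h3]
      apply ENNReal.toReal_le_of_le_ofReal (by positivity)
      have h4 := win_conv_le g hg.1 (ENNReal.ofReal M) hg.2.2 N hN l m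
      refine h4.trans (le_of_eq ?_)
      rw [ENNReal.ofReal_mul (by positivity), ENNReal.ofReal_mul (by positivity),
        ENNReal.ofReal_natCast]
    refine h1.trans ((mul_le_mul_of_nonneg_left h2 (by positivity)).trans (le_of_eq ?_))
    have hNe : N = n * (1 + ((l:ℝ) - 1) / n) := by
      rw [hNdef]; field_simp; ring
    have : (N / l) ^ 2 * (l * (M * ((l + 1) / N))) = N * ((1 + 1 / (l:ℝ)) * M) := by
      field_simp
    rw [this, hNe]
    ring

theorem smooth_avg (n l : ℕ) (hn : 0 < n) (hl : 0 < l) {k : ℕ} (p : Fin k → ℝ)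
    (g : Fin k → ℝ → ℝ≥0∞) (hp : ∀ i, 0 ≤ p i) (M : ℝ) (hg : ∀ i, AutoLE M (g i))
    (h1 : ∀ᵐ x ∂(volume.restrict (Set.Icc (0:ℝ) 1)), ∑ i, ENNReal.ofReal (p i) * g i x = 1) :
    ∀ j < n, ∑ i, p i * smooth n l (g i) j = 1 := by
  intro j hj
  have hN := Npos hn hl
  set N : ℝ := (n:ℝ) + l - 1 with hNdef
  have hl0 : (0:ℝ) < l := by exact_mod_cast hl
  have hjn : (j:ℝ) + 1 ≤ n := by exact_mod_cast hj
  set S := Set.Ico ((j:ℝ) / N) (((j:ℝ) + l) / N) with hS
  have hsub : S ⊆ Set.Icc (0:ℝ) 1 := by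
    intro x hx
    constructor
    · exact le_trans (by positivity) hx.1
    · refine hx.2.le.trans ?_
      rw [div_le_one hN]
      linarith
  have h2 : ∫⁻ x in S, ∑ i, ENNReal.ofReal (p i) * g i x = ENNReal.ofReal (l / N) := by
    have h3 : ∀ᵐ x ∂(volume.restrict S), ∑ i, ENNReal.ofReal (p i) * g i x = 1 :=
      ae_restrict_of_ae_restrict_of_subset hsub h1
    rw [lintegral_congr_ae h3, lintegral_one, Measure.restrict_apply_univ, hS, Real.volume_Ico]
    congr 1
    field_simp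
    ring
  rw [lintegral_finsetSum _ (fun i _ => ((hg i).1.const_mul _))] at h2
  have h4 : ∀ i ∈ Finset.univ, ∫⁻ x in S, ENNReal.ofReal (p i) * g i x =
      ENNReal.ofReal (p i) * ∫⁻ x in S, g i x := fun i _ => lintegral_const_mul _ (hg i).1
  rw [Finset.sum_congr rfl h4] at h2
  have h5 := congrArg ENNReal.toReal h2
  rw [ENNReal.toReal_sum (fun i _ => ENNReal.mul_ne_top ENNReal.ofReal_ne_top
    (win_ne_top (g i) M (hg i) N hN l j)), ENNReal.toReal_ofReal (by positivity)] at h5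
  have h6 : ∀ i, p i * smooth n l (g i) j =
      N / l * (ENNReal.ofReal (p i) * ∫⁻ x in S, g i x).toReal := by
    intro i
    unfold smooth
    rw [if_pos hj, ENNReal.toReal_mul, ENNReal.toReal_ofReal (hp i)]
    ring
  simp_rw [h6]
  rw [← Finset.mul_sum, h5]
  field_simp

theorem disc_of_mix (n l : ℕ) (hn : 0 < n) (hl : 0 < l) (M : ℝ) (hM : M ∈ MixSet) :
    (1 + 1 / (l:ℝ)) * (1 + ((l:ℝ) - 1) / n) * M ∈ Disc n := by
  obtain ⟨hM0, k, p, g, hp, hp1, hg, h1⟩ := hM
  have hl1 : (1:ℝ) ≤ l := by exact_mod_cast hl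
  have hn0 : (0:ℝ) < n := by exact_mod_cast hn
  apply disc_of_family n _ _ p (fun i => smooth n l (g i)) hp hp1
    (fun i => smooth_feas n l hn hl M hM0 (g i) (hg i))
    (smooth_avg n l hn hl p g hp M hg h1)
  have : 0 ≤ ((l:ℝ) - 1) / n := div_nonneg (by linarith) hn0.le
  positivity

end Pool.Agent.H71.MS
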