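import Mathlib
import Pool.Agent.H71.MS.Defs
import Pool.Agent.H71.MS.SmoothB
import Pool.Agent.H71.MS.Sep

/-! Duality: `sInf MixSet = sSup` of the weighted autoconvolution constants. -/

set_option autoImplicit false

open MeasureTheory Set Finset
open scoped ENNReal

namespace Pool.Agent.H71.MS

/-- Weak duality. -/
theorem mem_of_mix (h : ℝ → ℝ≥0∞) (hh : ProbDensity h) (M : ℝ) (hM : M ∈ MixSet) :
    ∃ g, AutoLE M g ∧ 1 ≤ ∫⁻ x in Set.Icc (0:ℝ) 1, g x * h x := by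
  obtain ⟨hM0, k, p, g, hp, hp1, hg, h1⟩ := hM
  by_contra hno
  push Not at hno
  have h2 : ∫⁻ x in Set.Icc (0:ℝ) 1, (∑ i, ENNReal.ofReal (p i) * g i x) * h x = 1 := by
    rw [← hh.2]
    apply lintegral_congr_ae
    filter_upwards [h1] with x hx
    rw [hx, one_mul]
  have h3 : ∫⁻ x in Set.Icc (0:ℝ) 1, (∑ i, ENNReal.ofReal (p i) * g i x) * h x =
      ∑ i, ENNReal.ofReal (p i) * ∫⁻ x in Set.Icc (0:ℝ) 1, g i x * h x := by
    have h4 : ∀ x, (∑ i, ENNReal.ofReal (p i) * g i x) * h x =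
        ∑ i, ENNReal.ofReal (p i) * (g i x * h x) := by
      intro x
      rw [Finset.sum_mul]
      exact Finset.sum_congr rfl fun i _ => mul_assoc _ _ _
    have hm : ∀ i ∈ Finset.univ, Measurable (fun x => ENNReal.ofReal (p i) * (g i x * h x)) :=
      fun i _ => (((hg i).1.mul hh.1).const_mul _)
    simp_rw [h4]
    rw [lintegral_finsetSum _ hm]
    exact Finset.sum_congr rfl fun i _ => lintegral_const_mul _ ((hg i).1.mul hh.1)
  rw [h3] at h2
  have hne : (Finset.univ : Finset (Fin k)).Nonempty := by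
    by_contra hno2
    rw [Finset.not_nonempty_iff_eq_empty] at hno2
    rw [hno2] at hp1
    simp at hp1
  obtain ⟨i0, -, hi0⟩ := Finset.exists_max_image Finset.univ
    (fun i => ∫⁻ x in Set.Icc (0:ℝ) 1, g i x * h x) hne
  have h5 : ∑ i, ENNReal.ofReal (p i) = 1 := by
    rw [← ENNReal.ofReal_sum_of_nonneg (fun i _ => hp i), hp1, ENNReal.ofReal_one]
  have h6 : ∑ i, ENNReal.ofReal (p i) * ∫⁻ x in Set.Icc (0:ℝ) 1, g i x * h x ≤
      ∑ i, ENNReal.ofReal (p i) * ∫⁻ x in Set.Icc (0:ℝ) 1, g i0 x * h x :=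
    Finset.sum_le_sum fun i hi => mul_le_mul_right (hi0 i hi) _
  rw [h2, ← Finset.sum_mul, h5, one_mul] at h6
  exact absurd h6 (not_le.mpr (hno (g i0) (hg i0)))

theorem weak_dual (h : ℝ → ℝ≥0∞) (hh : ProbDensity h) (M : ℝ) (hM : M ∈ MixSet) :
    autoConst h ≤ M := by
  obtain ⟨g, hg, hi⟩ := mem_of_mix h hh M hM
  exact csInf_le ⟨0, fun _ h => h.1⟩ ⟨hM.1, g, hg, hi⟩

theorem autoConst_nonneg (h : ℝ → ℝ≥0∞) : 0 ≤ autoConst h := Real.sInf_nonneg fun _ h => h.1

/-- The step density of a weight vector. -/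
noncomputable def stepDens (n l : ℕ) (b : ℕ → ℝ) (x : ℝ) : ℝ≥0∞ :=
  ∑ j ∈ range n, ENNReal.ofReal (((n:ℝ) + l - 1) / (l * n) * b j) *
    (Set.Ico ((j:ℝ) / ((n:ℝ) + l - 1)) (((j:ℝ) + l) / ((n:ℝ) + l - 1))).indicator
      (1 : ℝ → ℝ≥0∞) x

lemma stepDens_int (n l : ℕ) (hn : 0 < n) (hl : 0 < l) (b : ℕ → ℝ) (hb : ∀ j, 0 ≤ b j)
    (g : ℝ → ℝ≥0∞) (hg : Measurable g) :
    ∫⁻ x in Set.Icc (0:ℝ) 1, g x * stepDens n l b x =
      ∑ j ∈ range n, ENNReal.ofReal (((n:ℝ) + l - 1) / (l * n) * b j) *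
        ∫⁻ x in Set.Ico ((j:ℝ) / ((n:ℝ) + l - 1)) (((j:ℝ) + l) / ((n:ℝ) + l - 1)), g x := by
  have hN := Npos hn hl
  set N : ℝ := (n:ℝ) + l - 1 with hNdef
  unfold stepDens
  rw [← hNdef]
  have h1 : ∀ x, g x * ∑ j ∈ range n, ENNReal.ofReal (N / (l * n) * b j) *
      (Set.Ico ((j:ℝ) / N) (((j:ℝ) + l) / N)).indicator (1 : ℝ → ℝ≥0∞) x =
      ∑ j ∈ range n, ENNReal.ofReal (N / (l * n) * b j) *
        (Set.Ico ((j:ℝ) / N) (((j:ℝ) + l) / N)).indicator g x := by
    intro x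
    rw [Finset.mul_sum]
    apply Finset.sum_congr rfl
    intro j _
    by_cases hx : x ∈ Set.Ico ((j:ℝ) / N) (((j:ℝ) + l) / N)
    · rw [Set.indicator_of_mem hx, Set.indicator_of_mem hx]
      simp only [Pi.one_apply, mul_one]
      rw [mul_comm]
    · rw [Set.indicator_of_notMem hx, Set.indicator_of_notMem hx]
      simp
  simp_rw [h1]
  have hm : ∀ j ∈ range n, Measurable (fun x => ENNReal.ofReal (N / (l * n) * b j) *
        (Set.Ico ((j:ℝ) / N) (((j:ℝ) + l) / N)).indicator g x) :=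
    fun j _ => (hg.indicator measurableSet_Ico).const_mul _
  rw [lintegral_finsetSum _ hm]
  apply Finset.sum_congr rfl
  intro j hj
  rw [lintegral_const_mul _ (hg.indicator measurableSet_Ico), lintegral_indicator measurableSet_Ico,
    Measure.restrict_restrict measurableSet_Ico]
  have hjn : (j:ℝ) + 1 ≤ n := by exact_mod_cast Finset.mem_range.mp hj
  have hsub : Set.Ico ((j:ℝ) / N) (((j:ℝ) + l) / N) ∩ Set.Icc (0:ℝ) 1 =
      Set.Ico ((j:ℝ) / N) (((j:ℝ) + l) / N) := by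
    rw [Set.inter_eq_left]
    intro x hx
    constructor
    · exact le_trans (by positivity) hx.1
    · refine hx.2.le.trans ?_
      rw [div_le_one hN]
      linarith
  rw [hsub]

lemma stepDens_prob (n l : ℕ) (hn : 0 < n) (hl : 0 < l) (b : ℕ → ℝ) (hb : ∀ j, 0 ≤ b j)
    (hb1 : ∑ j ∈ range n, b j = n) : ProbDensity (stepDens n l b) := by
  have hN := Npos hn hl
  have hl0 : (0:ℝ) < l := by exact_mod_cast hl
  have hn0 : (0:ℝ) < n := by exact_mod_cast hn
  constructor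
  · apply Finset.measurable_fun_sum
    intro j _
    exact (measurable_one.indicator measurableSet_Ico).const_mul _
  · have h1 := stepDens_int n l hn hl b hb (fun _ => 1) measurable_const
    simp only [one_mul, lintegral_one, Measure.restrict_apply_univ, Real.volume_Ico] at h1
    rw [h1]
    have h2 : ∀ j ∈ range n, ENNReal.ofReal (((n:ℝ) + l - 1) / (l * n) * b j) *
        ENNReal.ofReal (((j:ℝ) + l) / ((n:ℝ) + l - 1) - (j:ℝ) / ((n:ℝ) + l - 1)) =
        ENNReal.ofReal (b j / n) := by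
      intro j _
      rw [← ENNReal.ofReal_mul (mul_nonneg (by positivity) (hb j))]
      congr 1
      field_simp
      ring
    rw [Finset.sum_congr rfl h2, ← ENNReal.ofReal_sum_of_nonneg
      (fun j _ => div_nonneg (hb j) hn0.le), ← Finset.sum_div, hb1, div_self hn0.ne',
      ENNReal.ofReal_one]

lemma stepDens_lt (n l : ℕ) (hn : 0 < n) (hl : 0 < l) (b : ℕ → ℝ) (hb : ∀ j, 0 ≤ b j)
    (M : ℝ) (g : ℝ → ℝ≥0∞) (hg : AutoLE M g)
    (hlt : ∑ j ∈ range n, b j * smooth n l g j < n) :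
    ∫⁻ x in Set.Icc (0:ℝ) 1, g x * stepDens n l b x < 1 := by
  have hN := Npos hn hl
  have hl0 : (0:ℝ) < l := by exact_mod_cast hl
  have hn0 : (0:ℝ) < n := by exact_mod_cast hn
  rw [stepDens_int n l hn hl b hb g hg.1]
  have h1 : ∀ j ∈ range n, ENNReal.ofReal (((n:ℝ) + l - 1) / (l * n) * b j) *
        ∫⁻ x in Set.Ico ((j:ℝ) / ((n:ℝ) + l - 1)) (((j:ℝ) + l) / ((n:ℝ) + l - 1)), g x =
      ENNReal.ofReal (b j * smooth n l g j / n) := by
    intro j hj
    have hjn := Finset.mem_range.mp hj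
    have hfin := win_ne_top g M hg _ hN l j
    rw [← ENNReal.ofReal_toReal hfin, ← ENNReal.ofReal_mul (mul_nonneg (by positivity) (hb j))]
    congr 1
    unfold smooth
    rw [if_pos hjn]
    field_simp
  rw [Finset.sum_congr rfl h1, ← ENNReal.ofReal_sum_of_nonneg, ← Finset.sum_div,
    ENNReal.ofReal_lt_one, div_lt_one hn0]
  · exact hlt
  · intro j hj
    apply div_nonneg (mul_nonneg (hb j) _) hn0.le
    unfold smooth
    split_ifs
    · positivity
    · exact le_rfl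

end Pool.Agent.H71.MS
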