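import Mathlib
import Pool.Agent.H71.MS.Defs
import Pool.Agent.H63.MSLowerE

/-! From colourings to mixtures. -/

set_option autoImplicit false

open MeasureTheory Set Finset
open scoped ENNReal

namespace Pool.Agent.H71.MS

open Pool.Agent.H63.MS

theorem classes_of_not_attained (r : ℕ) (hr : 1 ≤ r) (ε : ℝ) (hε : 0 < ε) (hna : ¬ Attained r ε) :
    ∃ g : Fin r → ℝ → ℝ≥0∞, (∀ i, AutoLE ((r:ℝ) ^ 2 * ε) (g i)) ∧
      ∀ᵐ x ∂(volume.restrict (Set.Icc (0:ℝ) 1)), ∑ i, ENNReal.ofReal (1 / (r:ℝ)) * g i x = 1 := by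
  have hr0 : (0:ℝ) < r := by exact_mod_cast hr
  have hcon : ∃ χ : ℝ → Fin r, MeasurableColouring r χ ∧ ∀ A : Set ℝ, A ⊆ Set.Icc 0 1 →
      NullMeasurableSet A volume → SymmetricSet A → (∃ i : Fin r, ∀ t ∈ A, χ t = i) →
      volume A < ENNReal.ofReal ε := by
    by_contra hno
    apply hna
    refine ⟨hε, fun χ hχ => ?_⟩
    by_contra hA
    apply hno
    refine ⟨χ, hχ, fun A h1 h2 h3 h4 => ?_⟩
    by_contra hlt
    exact hA ⟨A, h1, h2, h3, h4, not_lt.mp hlt⟩
  obtain ⟨χ, hχ, hcon⟩ := hcon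
  have hchoose : ∀ i : Fin r, ∃ B : Set ℝ, B ⊆ Set.Icc (0:ℝ) 1 ∩ {t | χ t = i} ∧ MeasurableSet B ∧
      B =ᵐ[volume] (Set.Icc (0:ℝ) 1 ∩ {t | χ t = i} : Set ℝ) :=
    fun i => (hχ i).exists_measurable_subset_ae_eq
  choose B hBs hBm hBe using hchoose
  have hB1 : ∀ i, B i ⊆ Set.Icc 0 1 := fun i => (hBs i).trans Set.inter_subset_left
  have hM : ∀ i, ∀ s : ℝ, volume (B i ∩ {x | s - x ∈ B i}) ≤ ENNReal.ofReal ε := by
    intro i s
    have hm : MeasurableSet {x : ℝ | s - x ∈ B i} := (measurable_const.sub measurable_id) (hBm i)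
    exact (hcon (B i ∩ {x | s - x ∈ B i}) (Set.inter_subset_left.trans (hB1 i))
      ((hBm i).inter hm).nullMeasurableSet (symm_inter _ _)
      ⟨i, fun t ht => (hBs i ht.1).2⟩).le
  have hdisj : ∀ i j, i ≠ j → Disjoint (B i) (B j) := by
    intro i j hij
    rw [Set.disjoint_left]
    intro t hi hj
    exact hij ((hBs i hi).2.symm.trans (hBs j hj).2)
  have hU : (⋃ i, B i) =ᵐ[volume] (Set.Icc (0:ℝ) 1) := by
    have h1 : (⋃ i, B i) =ᵐ[volume] (⋃ i, (Set.Icc (0:ℝ) 1 ∩ {t | χ t = i})) :=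
      Filter.EventuallyEq.countable_iUnion hBe
    have h2 : (⋃ i, (Set.Icc (0:ℝ) 1 ∩ {t | χ t = i})) = Set.Icc (0:ℝ) 1 := by
      ext t; simp
    rw [h2] at h1
    exact h1
  refine ⟨fun i => (B i).indicator (fun _ => ENNReal.ofReal r), ?_, ?_⟩
  · intro i
    refine ⟨measurable_const.indicator (hBm i), ?_, ?_⟩
    · intro x hx
      exact Set.indicator_of_notMem (fun h => hx (hB1 i h)) _
    · intro s
      have hm : MeasurableSet {x : ℝ | s - x ∈ B i} := (measurable_const.sub measurable_id) (hBm i)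
      have h1 : ∀ x, (B i).indicator (fun _ => ENNReal.ofReal r) x *
          (B i).indicator (fun _ => ENNReal.ofReal r) (s - x) =
          (B i ∩ {x | s - x ∈ B i}).indicator (fun _ => ENNReal.ofReal (r ^ 2)) x := by
        intro x
        by_cases h2 : x ∈ B i
        · by_cases h3 : s - x ∈ B i
          · rw [Set.indicator_of_mem h2, Set.indicator_of_mem h3,
              Set.indicator_of_mem (show x ∈ B i ∩ {x | s - x ∈ B i} from ⟨h2, h3⟩),
              ← ENNReal.ofReal_mul hr0.le, sq]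
          · rw [Set.indicator_of_notMem h3, mul_zero,
              Set.indicator_of_notMem (fun h => h3 h.2)]
        · rw [Set.indicator_of_notMem h2, zero_mul,
              Set.indicator_of_notMem (fun h => h2 h.1)]
      simp_rw [h1]
      rw [lintegral_indicator ((hBm i).inter hm), lintegral_const, Measure.restrict_apply_univ,
        ENNReal.ofReal_mul (by positivity)]
      gcongr
      exact hM i s
  · have h1 : ∀ᵐ x ∂(volume.restrict (Set.Icc (0:ℝ) 1)), x ∈ ⋃ i, B i := by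
      have h2 : ∀ᵐ x ∂(volume : Measure ℝ), x ∈ Set.Icc (0:ℝ) 1 → x ∈ ⋃ i, B i := by
        filter_upwards [hU.mem_iff] with x hx
        intro h3
        exact hx.mpr h3
      exact (ae_restrict_iff' measurableSet_Icc).mpr h2
    filter_upwards [h1] with x hx
    obtain ⟨i, hi⟩ := Set.mem_iUnion.mp hx
    rw [Finset.sum_eq_single i]
    · rw [Set.indicator_of_mem hi, ← ENNReal.ofReal_mul (by positivity)]
      have : 1 / (r:ℝ) * r = 1 := by field_simp
      rw [this, ENNReal.ofReal_one]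
    · intro j _ hj
      rw [Set.indicator_of_notMem, mul_zero]
      intro h
      exact (Set.disjoint_left.mp (hdisj j i hj)) h hi
    · intro h
      exact absurd (Finset.mem_univ i) h

theorem mix_of_not_attained (r : ℕ) (hr : 1 ≤ r) (ε : ℝ) (hε : 0 < ε) (hna : ¬ Attained r ε) :
    (r:ℝ) ^ 2 * ε ∈ MixSet := by
  have hr0 : (0:ℝ) < r := by exact_mod_cast hr
  obtain ⟨g, hg, h1⟩ := classes_of_not_attained r hr ε hε hna
  refine ⟨by positivity, r, fun _ => 1 / (r:ℝ), g, fun _ => by positivity, ?_, hg, h1⟩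
  simp only [Finset.sum_const, Finset.card_univ, Fintype.card_fin, nsmul_eq_mul]
  field_simp

theorem not_attained_of_lt (r : ℕ) (hr : 1 ≤ r) (ε : ℝ) (h : ms r < ε) : ¬ Attained r ε := by
  have hbdd : BddAbove {ε : ℝ | Attained r ε} := ⟨1, fun ε hε => attained_le_one r hr ε hε⟩
  intro h2
  have := le_csSup hbdd h2
  unfold ms at h
  linarith

lemma mixSet_bddBelow : BddBelow MixSet := ⟨0, fun _ h => h.1⟩

theorem mix_le_ms (r : ℕ) (hr : 1 ≤ r) : sInf MixSet ≤ (r:ℝ) ^ 2 * ms r := by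
  have hr0 : (0:ℝ) < r := by exact_mod_cast hr
  have hms0 : 0 ≤ ms r := Real.sSup_nonneg fun x hx => hx.1.le
  have hbdd : BddAbove {ε : ℝ | Attained r ε} := ⟨1, fun ε hε => attained_le_one r hr ε hε⟩
  apply le_of_forall_pos_le_add
  intro η hη
  have hη' : 0 < η / (r:ℝ) ^ 2 := by positivity
  have h1 : ¬ Attained r (ms r + η / (r:ℝ) ^ 2) := by
    intro h
    have := le_csSup hbdd h
    unfold ms at this
    linarith
  have h2 := mix_of_not_attained r hr _ (by positivity) h1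
  refine (csInf_le mixSet_bddBelow h2).trans (le_of_eq ?_)
  field_simp

end Pool.Agent.H71.MS
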