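import Mathlib

/-!
Row MS/Rat (PI helper71). Pure calculus, no definitions.

`cell_rate`: take `ℓ = ⌈√n⌉₊`: `(1 + 1/ℓ)(1 + (ℓ-1)/n) ≤ (1 + 1/√n)^2 = 1 + 2/√n + 1/n ≤ 1 + 3/√n`.
`colour_rate`: let `y = r^(1/3)`. If `y ≤ 19` then `a ≤ 1` and `c ≥ 0.7648` give `(1 + 6 / y) * c ≥ 1`.
If `y > 19` let `k = ⌊y⌋₊ ≥ 19`, `n = k ^ 2`, `ℓ = k`, so `k ^ 3 ≤ r`, `y < k + 1`:
`a ≤ ((1 + 1/k) (1 + (k-1)/k^2)) (r / (r - (k^2+1)))^2 c ≤ (1 + 1/k)^2 / (1 - 1/k - 1/k^3)^2 * c ≤ (1 + 6/(k+1)) c`.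
(`r / (r - (k^2+1))` is decreasing in `r`, so it is `≤ k^3 / (k^3 - k^2 - 1)`.)
-/

set_option autoImplicit false

namespace Pool.Agent.H71.MS

theorem cell_rate (c a : ℝ) (hc : 0 ≤ c) (n : ℕ) (hn : 0 < n)
    (h : ∀ l : ℕ, 0 < l → a ≤ (1 + 1 / (l:ℝ)) * (1 + ((l:ℝ) - 1) / n) * c) :
    a ≤ (1 + 3 / √(n:ℝ)) * c := by
  have hn1 : (1 : ℝ) ≤ n := by exact_mod_cast hn
  obtain ⟨s, hs⟩ : ∃ s : ℝ, s = √(n:ℝ) := ⟨_, rfl⟩
  have hs1 : 1 ≤ s := by rw [hs]; exact Real.one_le_sqrt.2 hn1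
  have hsn : s * s = n := by rw [hs]; exact Real.mul_self_sqrt (by linarith)
  obtain ⟨l, hl⟩ : ∃ l : ℕ, l = ⌈s⌉₊ := ⟨_, rfl⟩
  have hl1 : s ≤ l := by rw [hl]; exact Nat.le_ceil s
  have hl2 : (l : ℝ) < s + 1 := by rw [hl]; exact Nat.ceil_lt_add_one (by linarith)
  have hl0 : 0 < l := by
    have : (0 : ℝ) < l := by linarith
    exact_mod_cast this
  have h1 := h l hl0
  have e1 : 1 / (l : ℝ) ≤ 1 / s := one_div_le_one_div_of_le (by linarith) hl1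
  have e2 : ((l : ℝ) - 1) / n ≤ 1 / s := by
    rw [div_le_div_iff₀ (by linarith) (by linarith), ← hsn]
    nlinarith
  have e3 : 0 ≤ 1 / s := by positivity
  have e4 : 1 / s ≤ 1 := by rw [div_le_one (by linarith)]; exact hs1
  have e5 : 0 ≤ ((l : ℝ) - 1) / n := div_nonneg (by linarith) (by linarith)
  have e6 : (1 + 1 / (l:ℝ)) * (1 + ((l:ℝ) - 1) / n) ≤ 1 + 3 / s := by
    calc (1 + 1 / (l:ℝ)) * (1 + ((l:ℝ) - 1) / n) ≤ (1 + 1 / s) * (1 + 1 / s) :=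
          mul_le_mul (by linarith) (by linarith) (by linarith) (by linarith)
      _ ≤ 1 + 3 * (1 / s) := by nlinarith
      _ = 1 + 3 / s := by ring
  rw [← hs]
  exact h1.trans (mul_le_mul_of_nonneg_right e6 hc)

theorem colour_rate (c a : ℝ) (hc : 0.7648 ≤ c) (r : ℕ) (hr : 0 < r) (ha : a ≤ 1)
    (h : ∀ n l : ℕ, 0 < n → 0 < l → n + 1 < r →
      a ≤ (1 + 1 / (l:ℝ)) * (1 + ((l:ℝ) - 1) / n) * c * ((r:ℝ) / ((r:ℝ) - (n + 1))) ^ 2) :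
    a ≤ (1 + 6 / (r:ℝ) ^ (1 / 3 : ℝ)) * c := by
  have hr0 : (0 : ℝ) < r := by exact_mod_cast hr
  obtain ⟨y, hy⟩ : ∃ y : ℝ, y = (r:ℝ) ^ (1 / 3 : ℝ) := ⟨_, rfl⟩
  have hy0 : 0 < y := by rw [hy]; exact Real.rpow_pos_of_pos hr0 _
  have hy3 : y ^ 3 = r := by
    rw [hy, ← Real.rpow_natCast, ← Real.rpow_mul hr0.le]
    norm_num
  rw [← hy]
  have hc0 : 0 < c := by linarith [show (0 : ℝ) < 0.7648 by norm_num]
  rcases le_or_gt y 19 with h19 | h19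
  · have e1 : 6 / 19 ≤ 6 / y := div_le_div_of_nonneg_left (by norm_num) hy0 h19
    have e2 : (1 + 6 / 19) * 0.7648 ≤ (1 + 6 / y) * c := by
      apply mul_le_mul (by linarith) hc (by norm_num) (by positivity)
    have e3 : (1 : ℝ) ≤ (1 + 6 / 19) * 0.7648 := by norm_num
    linarith
  · obtain ⟨k, hk⟩ : ∃ k : ℕ, k = ⌊y⌋₊ := ⟨_, rfl⟩
    have hk1 : (k : ℝ) ≤ y := by rw [hk]; exact Nat.floor_le hy0.le
    have hk2 : y < k + 1 := by rw [hk]; exact Nat.lt_floor_add_one y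
    have hk19 : 19 ≤ k := by rw [hk]; exact Nat.le_floor (by norm_num; exact h19.le)
    have hK : (19 : ℝ) ≤ k := by exact_mod_cast hk19
    have hk3 : (k : ℝ) ^ 3 ≤ r := by rw [← hy3]; exact pow_le_pow_left₀ (by linarith) hk1 3
    have hk3' : k ^ 3 ≤ r := by exact_mod_cast hk3
    have hlt : k ^ 2 + 1 < r := by
      have : k ^ 2 + 1 < k ^ 3 := by nlinarith [hk19, pow_pos (by omega : 0 < k) 2]
      omega
    have h1 := h (k ^ 2) k (by positivity) (by omega) hlt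
    push_cast at h1
    obtain ⟨K, hKd⟩ : ∃ K : ℝ, K = (k : ℝ) := ⟨_, rfl⟩
    rw [← hKd] at h1 hK hk1 hk2 hk3
    have hm : 0 < K ^ 3 - K ^ 2 - 1 := by nlinarith [sq_nonneg K]
    have hR : 0 < (r : ℝ) - (K ^ 2 + 1) := by linarith
    have e1 : (r : ℝ) / ((r : ℝ) - (K ^ 2 + 1)) ≤ K ^ 3 / (K ^ 3 - K ^ 2 - 1) := by
      rw [div_le_div_iff₀ hR hm]
      nlinarith [mul_nonneg (sub_nonneg.2 hk3) (show (0 : ℝ) ≤ K ^ 2 + 1 by positivity)]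
    have e1' : 0 ≤ (r : ℝ) / ((r : ℝ) - (K ^ 2 + 1)) := by positivity
    have e2 : ((r : ℝ) / ((r : ℝ) - (K ^ 2 + 1))) ^ 2 ≤ (K ^ 3 / (K ^ 3 - K ^ 2 - 1)) ^ 2 :=
      pow_le_pow_left₀ e1' e1 2
    have e3 : (K - 1) / K ^ 2 ≤ 1 / K := by
      rw [div_le_div_iff₀ (by positivity) (by linarith)]
      nlinarith
    have e3' : 0 ≤ (K - 1) / K ^ 2 := div_nonneg (by linarith) (by positivity)
    have e4 : 0 < 1 / K := by positivity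
    have e5 : (1 + 1 / K) * (1 + (K - 1) / K ^ 2) ≤ (1 + 1 / K) * (1 + 1 / K) :=
      mul_le_mul_of_nonneg_left (by linarith) (by linarith)
    have e6 : (1 + 1 / K) * (1 + (K - 1) / K ^ 2) * c * ((r:ℝ) / ((r:ℝ) - (K ^ 2 + 1))) ^ 2 ≤
        (1 + 1 / K) * (1 + 1 / K) * c * (K ^ 3 / (K ^ 3 - K ^ 2 - 1)) ^ 2 := by
      apply mul_le_mul (mul_le_mul_of_nonneg_right e5 hc0.le) e2 (by positivity) (by positivity)
    have e7 : (1 + 1 / K) * (1 + 1 / K) * (K ^ 3 / (K ^ 3 - K ^ 2 - 1)) ^ 2 ≤ 1 + 6 / (K + 1) := by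
      have e8 : (1 + 1 / K) * (1 + 1 / K) * (K ^ 3 / (K ^ 3 - K ^ 2 - 1)) ^ 2 =
          ((K + 1) * K ^ 2) ^ 2 / (K ^ 3 - K ^ 2 - 1) ^ 2 := by
        field_simp
      have e9 : 1 + 6 / (K + 1) = (K + 7) / (K + 1) := by
        field_simp
        ring
      rw [e8, e9, div_le_div_iff₀ (by positivity) (by linarith)]
      have e10 : (K + 7) * (K ^ 3 - K ^ 2 - 1) ^ 2 - ((K + 1) * K ^ 2) ^ 2 * (K + 1) =
          2 * K ^ 5 * (K - 8) + 4 * K ^ 3 * (K - 3) + 14 * K ^ 2 + K + 7 := by ring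
      have e11 : 0 ≤ 2 * K ^ 5 * (K - 8) := mul_nonneg (by positivity) (by linarith)
      have e12 : 0 ≤ 4 * K ^ 3 * (K - 3) := mul_nonneg (by positivity) (by linarith)
      have e13 : 0 ≤ K ^ 2 := by positivity
      linarith
    have e14 : 6 / (K + 1) ≤ 6 / y := div_le_div_of_nonneg_left (by norm_num) hy0 hk2.le
    calc a ≤ (1 + 1 / K) * (1 + (K - 1) / K ^ 2) * c * ((r:ℝ) / ((r:ℝ) - (K ^ 2 + 1))) ^ 2 := h1
      _ ≤ (1 + 1 / K) * (1 + 1 / K) * c * (K ^ 3 / (K ^ 3 - K ^ 2 - 1)) ^ 2 := e6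
      _ = ((1 + 1 / K) * (1 + 1 / K) * (K ^ 3 / (K ^ 3 - K ^ 2 - 1)) ^ 2) * c := by ring
      _ ≤ (1 + 6 / (K + 1)) * c := mul_le_mul_of_nonneg_right e7 hc0.le
      _ ≤ (1 + 6 / y) * c := mul_le_mul_of_nonneg_right (by linarith) hc0.le

end Pool.Agent.H71.MS
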