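import Mathlib
import Pool.Agent.H71.MS.Defs
import Pool.Agent.H71.MS.SmoothB
import Pool.Agent.H71.MS.Lower
import Pool.Agent.H71.MS.Dual
import Pool.Agent.H71.MS.Col
import Pool.Agent.H71.MS.Rat
import Pool.Agent.H71.MS.Dis
import Pool.Agent.H63.MSLowerE
import Pool.Agent.H63.MSCert
import Pool.Agent.H63.MSUpperE

/-! Assembly. -/

set_option autoImplicit false

open MeasureTheory Set Finset
open scoped ENNReal Topology

namespace Pool.Agent.H71.MS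

open Pool.Agent.H63.MS

lemma one_mem_mix : (1:ℝ) ∈ MixSet := by
  refine ⟨zero_le_one, 1, fun _ => 1, fun _ => (Set.Icc (0:ℝ) 1).indicator 1, fun _ => zero_le_one,
    by simp, ?_, ?_⟩
  · intro _
    refine ⟨measurable_one.indicator measurableSet_Icc, fun x hx => Set.indicator_of_notMem hx _, ?_⟩
    intro s
    calc ∫⁻ x, (Set.Icc (0:ℝ) 1).indicator (1 : ℝ → ℝ≥0∞) x * (Set.Icc (0:ℝ) 1).indicator 1 (s - x)
        ≤ ∫⁻ x, (Set.Icc (0:ℝ) 1).indicator (1 : ℝ → ℝ≥0∞) x := by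
          apply lintegral_mono
          intro x
          calc (Set.Icc (0:ℝ) 1).indicator (1 : ℝ → ℝ≥0∞) x * (Set.Icc (0:ℝ) 1).indicator 1 (s - x)
              ≤ (Set.Icc (0:ℝ) 1).indicator (1 : ℝ → ℝ≥0∞) x * 1 := by
                gcongr
                exact Set.indicator_le_self' (fun _ _ => zero_le) _ |>.trans (by simp)
            _ = _ := mul_one _
      _ = ENNReal.ofReal 1 := by
          rw [lintegral_indicator_one measurableSet_Icc, Real.volume_Icc, sub_zero]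
  · filter_upwards [ae_restrict_mem measurableSet_Icc] with x hx
    simp [Set.indicator_of_mem hx]

lemma mix_nonempty : MixSet.Nonempty := ⟨1, one_mem_mix⟩

lemma cc_nonneg : 0 ≤ sInf MixSet := Real.sInf_nonneg fun _ h => h.1

lemma ms_nonneg (r : ℕ) : 0 ≤ ms r := Real.sSup_nonneg fun _ hx => hx.1.le

lemma ms_sq_le (n : ℕ) (hn : 0 < n) (M : ℝ) (hM : M ∈ Disc n) (r : ℕ) (hr : n + 1 < r) :
    (r:ℝ) ^ 2 * ms r ≤ M * ((r:ℝ) / ((r:ℝ) - (n + 1))) ^ 2 := by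
  have h := ms_le_of_disc n hn M hM r hr
  calc (r:ℝ) ^ 2 * ms r ≤ (r:ℝ) ^ 2 * (M / ((r:ℝ) - (n + 1)) ^ 2) :=
        mul_le_mul_of_nonneg_left h (by positivity)
    _ = _ := by rw [div_pow]; ring

lemma ratio_tendsto (n : ℕ) :
    Filter.Tendsto (fun r : ℕ => ((r:ℝ) / ((r:ℝ) - (n + 1))) ^ 2) Filter.atTop (𝓝 1) := by
  have h1 : Filter.Tendsto (fun r : ℕ => ((n:ℝ) + 1) / (r:ℝ)) Filter.atTop (𝓝 0) :=
    tendsto_const_div_atTop_nhds_zero_nat _
  have h2 : Filter.Tendsto (fun r : ℕ => (1 / (1 - ((n:ℝ) + 1) / (r:ℝ))) ^ 2) Filter.atTop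
      (𝓝 ((1 / (1 - 0)) ^ 2)) :=
    (tendsto_const_nhds.div (tendsto_const_nhds.sub h1) (by norm_num)).pow 2
  have h3 : ((1 / (1 - 0)) ^ 2 : ℝ) = 1 := by norm_num
  rw [h3] at h2
  refine h2.congr' ?_
  filter_upwards [Filter.eventually_gt_atTop 0] with r hr
  have hr0 : (0:ℝ) < r := by exact_mod_cast hr
  congr 1
  have : 1 - ((n:ℝ) + 1) / r = ((r:ℝ) - (n + 1)) / r := by field_simp
  rw [this, one_div_div]

theorem mix_le_disc (n : ℕ) (hn : 0 < n) (M : ℝ) (hM : M ∈ Disc n) : sInf MixSet ≤ M := by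
  have h1 := (ratio_tendsto n).const_mul M
  rw [mul_one] at h1
  refine ge_of_tendsto h1 ?_
  filter_upwards [Filter.eventually_gt_atTop (n + 1)] with r hr
  exact (mix_le_ms r (by omega)).trans (ms_sq_le n hn M hM r hr)

lemma fac_pos (n l : ℕ) (hn : 0 < n) (hl : 0 < l) : 0 < (1 + 1 / (l:ℝ)) * (1 + ((l:ℝ) - 1) / n) := by
  have hl1 : (1:ℝ) ≤ l := by exact_mod_cast hl
  have hn0 : (0:ℝ) < n := by exact_mod_cast hn
  have : 0 ≤ ((l:ℝ) - 1) / n := div_nonneg (by linarith) hn0.le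
  positivity

lemma disc_nonempty (n : ℕ) (hn : 0 < n) : (Disc n).Nonempty :=
  ⟨_, disc_of_mix n 1 hn one_pos 1 one_mem_mix⟩

lemma disc_bddBelow (n : ℕ) : BddBelow (Disc n) := ⟨0, fun _ h => h.1⟩

theorem mix_le_cell (n : ℕ) (hn : 0 < n) : sInf MixSet ≤ cellConst n :=
  le_csInf (disc_nonempty n hn) fun M hM => mix_le_disc n hn M hM

/-- A bound which holds for all `M` in `MixSet` holds for the infimum. -/
lemma inf_bound (a f : ℝ) (hf : 0 < f) (h : ∀ M ∈ MixSet, a ≤ f * M) : a ≤ f * sInf MixSet := by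
  have h1 : a / f ≤ sInf MixSet := by
    apply le_csInf mix_nonempty
    intro M hM
    rw [div_le_iff₀ hf]
    linarith [h M hM]
  rw [div_le_iff₀ hf] at h1
  linarith

theorem cell_le (n l : ℕ) (hn : 0 < n) (hl : 0 < l) :
    cellConst n ≤ (1 + 1 / (l:ℝ)) * (1 + ((l:ℝ) - 1) / n) * sInf MixSet := by
  apply inf_bound _ _ (fac_pos n l hn hl)
  intro M hM
  exact csInf_le (disc_bddBelow n) (disc_of_mix n l hn hl M hM)

theorem cell_bound (n : ℕ) (hn : 0 < n) : cellConst n ≤ (1 + 3 / √(n:ℝ)) * sInf MixSet :=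
  cell_rate _ _ cc_nonneg n hn fun l hl => cell_le n l hn hl

theorem ms_fac (n l r : ℕ) (hn : 0 < n) (hl : 0 < l) (hr : n + 1 < r) :
    (r:ℝ) ^ 2 * ms r ≤ (1 + 1 / (l:ℝ)) * (1 + ((l:ℝ) - 1) / n) * sInf MixSet *
      ((r:ℝ) / ((r:ℝ) - (n + 1))) ^ 2 := by
  have hrn : (n:ℝ) + 1 < r := by exact_mod_cast hr
  have hr0 : (0:ℝ) < r := by
    have : (0:ℝ) ≤ n := Nat.cast_nonneg n
    linarith
  have hq : 0 < ((r:ℝ) / ((r:ℝ) - (n + 1))) ^ 2 := by
    have : 0 < (r:ℝ) - (n + 1) := by linarith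
    positivity
  have h := inf_bound ((r:ℝ) ^ 2 * ms r)
    ((1 + 1 / (l:ℝ)) * (1 + ((l:ℝ) - 1) / n) * ((r:ℝ) / ((r:ℝ) - (n + 1))) ^ 2)
    (mul_pos (fac_pos n l hn hl) hq) (fun M hM => by
      have := ms_sq_le n hn _ (disc_of_mix n l hn hl M hM) r hr
      linarith)
  linarith

/-- The lower bound for the constant. -/
theorem cc_lower : 0.7648 ≤ sInf MixSet := by
  have h1 : Filter.Tendsto (fun k : ℕ => ((k:ℝ))⁻¹) Filter.atTop (𝓝 0) := tendsto_inv_atTop_nhds_zero_nat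
  have h2 : Filter.Tendsto (fun x : ℝ => (1 + x) * (1 + (x - x ^ 2)) * sInf MixSet *
      (1 / (1 - x - x ^ 3)) ^ 2) (𝓝 0) (𝓝 ((1 + 0) * (1 + (0 - 0 ^ 2)) * sInf MixSet *
      (1 / (1 - 0 - 0 ^ 3)) ^ 2)) := by
    apply ContinuousAt.tendsto
    apply ContinuousAt.mul (by fun_prop)
    apply ContinuousAt.pow
    apply ContinuousAt.div continuousAt_const (by fun_prop)
    norm_num
  have h3 := h2.comp h1
  have e : (1 + 0) * (1 + (0 - 0 ^ 2)) * sInf MixSet * (1 / (1 - 0 - 0 ^ 3)) ^ 2 = sInf MixSet := by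
    norm_num
  rw [e] at h3
  refine ge_of_tendsto h3 ?_
  filter_upwards [Filter.eventually_ge_atTop 3] with k hk
  have hk0 : (0:ℝ) < k := by
    have : 0 < k := by omega
    exact_mod_cast this
  have hlt : k ^ 2 + 1 < k ^ 3 := by nlinarith [hk, pow_pos (by omega : 0 < k) 2]
  have h4 := ms_fac (k ^ 2) k (k ^ 3) (by positivity) (by omega) hlt
  have h5 := ms_lower (k ^ 3) (by omega)
  refine h5.trans (h4.trans (le_of_eq ?_))
  simp only [Function.comp]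
  push_cast
  have e1 : (1:ℝ) / k = (k:ℝ)⁻¹ := one_div _
  have e2 : ((k:ℝ) - 1) / k ^ 2 = (k:ℝ)⁻¹ - (k:ℝ)⁻¹ ^ 2 := by field_simp
  have e3 : (k:ℝ) ^ 3 / ((k:ℝ) ^ 3 - (k ^ 2 + 1)) = 1 / (1 - (k:ℝ)⁻¹ - (k:ℝ)⁻¹ ^ 3) := by
    have hlt' : (k:ℝ) ^ 2 + 1 < (k:ℝ) ^ 3 := by exact_mod_cast hlt
    have h6 : (k:ℝ) ^ 3 - (k ^ 2 + 1) ≠ 0 := by linarith
    have h7 : 1 - (k:ℝ)⁻¹ - (k:ℝ)⁻¹ ^ 3 = ((k:ℝ) ^ 3 - (k ^ 2 + 1)) / k ^ 3 := by
      field_simp
      ring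
    rw [h7, one_div_div]
  rw [e1, e2, e3]

theorem ms_bound (r : ℕ) (hr : 0 < r) :
    (r:ℝ) ^ 2 * ms r ≤ (1 + 6 / (r:ℝ) ^ (1 / 3 : ℝ)) * sInf MixSet :=
  colour_rate _ _ cc_lower r hr (ms_le_one r hr) fun n l hn hl hnr => ms_fac n l r hn hl hnr

theorem ms_upper (r : ℕ) (hr : 300000 ≤ r) : (r : ℝ) ^ 2 * ms r ≤ 0.816 := by
  set q := r / 28 with hq
  have hq1 : 10600 ≤ q := by omega
  have hq0 : 0 < q := by omega
  have hr1 : 28 * q ≤ r := by omega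
  have hr2 : r ≤ 28 * q + 27 := by omega
  have h := ms_upper_abstract 28 64 100000 522136341206 GG (by norm_num) (by norm_num) (by norm_num)
    tab_sum GG_zero GG_conv q hq0 r hr1
  have hqr : (10600:ℝ) ≤ q := by exact_mod_cast hq1
  have hr2' : (r:ℝ) ≤ 28 * q + 27 := by exact_mod_cast hr2
  have hqpos : (0:ℝ) < q := by linarith
  have h1 : (r:ℝ) ≤ 28 * q * (1 + 1 / 10600) := by linarith
  have h2 : (r : ℝ) ^ 2 ≤ (28 * q * (1 + 1 / 10600)) ^ 2 := by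
    gcongr
  have h0 : (0:ℝ) ≤ ((522136341206 : ℕ) : ℝ) / (((64 : ℕ) : ℝ) * ((28 * q * 100000 : ℕ) : ℝ) ^ 2) := by
    positivity
  calc (r : ℝ) ^ 2 * ms r
      ≤ (r : ℝ) ^ 2 * (((522136341206 : ℕ) : ℝ) / (((64 : ℕ) : ℝ) * ((28 * q * 100000 : ℕ) : ℝ) ^ 2)) :=
        mul_le_mul_of_nonneg_left h (by positivity)
    _ ≤ (28 * q * (1 + 1 / 10600)) ^ 2 *
          (((522136341206 : ℕ) : ℝ) / (((64 : ℕ) : ℝ) * ((28 * q * 100000 : ℕ) : ℝ) ^ 2)) :=
        mul_le_mul_of_nonneg_right h2 h0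
    _ = 522136341206 / (64 * 100000 ^ 2) * (1 + 1 / 10600) ^ 2 := by
        push_cast
        field_simp
    _ ≤ 0.816 := by norm_num

theorem cc_upper : sInf MixSet ≤ 0.816 :=
  (mix_le_ms 300000 (by norm_num)).trans (ms_upper 300000 le_rfl)

/-- The sharper upper bound, from `28` colours. -/
theorem ms_upper_mul (q : ℕ) (hq : 0 < q) : ((28 * q : ℕ) : ℝ) ^ 2 * ms (28 * q) ≤ 0.81584 := by
  have h := ms_upper_abstract 28 64 100000 522136341206 GG (by norm_num) (by norm_num) (by norm_num)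
    tab_sum GG_zero GG_conv q hq (28 * q) le_rfl
  have hq0 : (0:ℝ) < q := by exact_mod_cast hq
  calc ((28 * q : ℕ) : ℝ) ^ 2 * ms (28 * q)
      ≤ ((28 * q : ℕ) : ℝ) ^ 2 *
        (((522136341206 : ℕ) : ℝ) / (((64 : ℕ) : ℝ) * ((28 * q * 100000 : ℕ) : ℝ) ^ 2)) :=
        mul_le_mul_of_nonneg_left h (by positivity)
    _ = 522136341206 / (64 * 100000 ^ 2) := by
        push_cast
        field_simp
    _ ≤ 0.81584 := by norm_num

theorem cc_upper2 : sInf MixSet ≤ 0.81584 := by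
  have h1 := mix_le_ms (28 * 1) (by norm_num)
  exact h1.trans (ms_upper_mul 1 one_pos)

theorem ms_tendsto : Filter.Tendsto (fun r : ℕ => (r:ℝ) ^ 2 * ms r) Filter.atTop (𝓝 (sInf MixSet)) := by
  have h1 : Filter.Tendsto (fun r : ℕ => (1 + 6 / (r:ℝ) ^ (1 / 3 : ℝ)) * sInf MixSet) Filter.atTop
      (𝓝 ((1 + 0) * sInf MixSet)) := by
    apply Filter.Tendsto.mul_const
    apply Filter.Tendsto.const_add
    apply Filter.Tendsto.div_atTop tendsto_const_nhds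
    exact (tendsto_rpow_atTop (by norm_num)).comp tendsto_natCast_atTop_atTop
  rw [add_zero, one_mul] at h1
  refine tendsto_of_tendsto_of_tendsto_of_le_of_le' tendsto_const_nhds h1 ?_ ?_
  · filter_upwards [Filter.eventually_gt_atTop 0] with r hr
    exact mix_le_ms r hr
  · filter_upwards [Filter.eventually_gt_atTop 0] with r hr
    exact ms_bound r hr

/-- Strong duality. -/
theorem strong_dual (M : ℝ) (hM0 : 0 ≤ M) (hM : M < sInf MixSet) :
    ∃ h, ProbDensity h ∧ M ≤ autoConst h := by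
  -- choose `n`, `l`
  obtain ⟨n, l, hn, hl, hlt⟩ : ∃ n l : ℕ, 0 < n ∧ 0 < l ∧
      (1 + 1 / (l:ℝ)) * (1 + ((l:ℝ) - 1) / n) * M < sInf MixSet := by
    have h1 : Filter.Tendsto (fun k : ℕ => ((k:ℝ))⁻¹) Filter.atTop (𝓝 0) :=
      tendsto_inv_atTop_nhds_zero_nat
    have h2 : Filter.Tendsto (fun x : ℝ => (1 + x) * (1 + (x - x ^ 2)) * M) (𝓝 0)
        (𝓝 ((1 + 0) * (1 + (0 - 0 ^ 2)) * M)) := by
      apply ContinuousAt.tendsto
      fun_prop
    have h3 := h2.comp h1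
    have e : (1 + 0) * (1 + (0 - 0 ^ 2)) * M = M := by norm_num
    rw [e] at h3
    have h4 := (h3.eventually (gt_mem_nhds hM)).and (Filter.eventually_ge_atTop 1)
    obtain ⟨k, hk, hk1⟩ := h4.exists
    have hk0 : (0:ℝ) < k := by exact_mod_cast hk1
    refine ⟨k ^ 2, k, by positivity, by omega, ?_⟩
    simp only [Function.comp] at hk
    push_cast
    have e1 : (1:ℝ) / k = (k:ℝ)⁻¹ := one_div _
    have e2 : ((k:ℝ) - 1) / k ^ 2 = (k:ℝ)⁻¹ - (k:ℝ)⁻¹ ^ 2 := by field_simp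
    rw [e1, e2]
    exact hk
  have hfac := fac_pos n l hn hl
  have hnot : (1 + 1 / (l:ℝ)) * (1 + ((l:ℝ) - 1) / n) * M ∉ Disc n := by
    intro h
    exact absurd (mix_le_disc n hn _ h) (not_le.mpr hlt)
  obtain ⟨b, hb, hb1, hsep⟩ := separation n hn _ (mul_nonneg hfac.le hM0) hnot
  have hprob := stepDens_prob n l hn hl b hb hb1
  refine ⟨stepDens n l b, hprob, ?_⟩
  apply le_csInf
  · obtain ⟨g, hg, hi⟩ := mem_of_mix _ hprob 1 one_mem_mix
    exact ⟨1, zero_le_one, g, hg, hi⟩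
  · rintro M' ⟨hM'0, g, hg, hi⟩
    by_contra hcon
    push Not at hcon
    have hg' : AutoLE M g :=
      ⟨hg.1, hg.2.1, fun s => (hg.2.2 s).trans (ENNReal.ofReal_le_ofReal hcon.le)⟩
    have h5 := stepDens_lt n l hn hl b hb M g hg'
      (hsep _ (smooth_feas n l hn hl M hM0 g hg'))
    exact absurd hi (not_le.mpr h5)

theorem duality : sInf MixSet = sSup {a : ℝ | ∃ h, ProbDensity h ∧ a = autoConst h} := by
  have hbdd : BddAbove {a : ℝ | ∃ h, ProbDensity h ∧ a = autoConst h} := by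
    refine ⟨1, ?_⟩
    rintro a ⟨h, hh, rfl⟩
    exact weak_dual h hh 1 one_mem_mix
  apply le_antisymm
  · apply le_of_forall_lt
    intro M hM
    obtain ⟨M', h1, h2⟩ := exists_between (max_lt hM (lt_of_lt_of_le (by norm_num) cc_lower :
      (0:ℝ) < sInf MixSet))
    obtain ⟨h, hh, hle⟩ := strong_dual M' ((le_max_right _ _).trans h1.le) h2
    exact lt_of_lt_of_le (lt_of_le_of_lt (le_max_left _ _) h1) (hle.trans (le_csSup hbdd ⟨h, hh, rfl⟩))
  · apply Real.sSup_le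
    · rintro a ⟨h, hh, rfl⟩
      exact le_csInf mix_nonempty fun M hM => weak_dual h hh M hM
    · exact cc_nonneg

end Pool.Agent.H71.MS
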