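import Mathlib
import Pool.Agent.H71.MS.Defs
import Pool.Agent.H71.MS.Main

/-!
Row MS/Att (PI helper71). The `n`-cell problem has a minimiser.

Compactness. Let `E = Fin (n+1) → Fin n → ℝ` (tables `G i t`, extended by `0` for `t ≥ n`). The set of the
`(M, p, G)` with `0 ≤ M ≤ M₀` (`M₀` any element of `Disc n`, `disc_nonempty`), `p` in the simplex,
`0 ≤ G i t`, all discrete autoconvolution values `≤ M * n` and `∑ i, p i * G i t = 1` for all `t`, is closed
and bounded (`G i t ^ 2 ≤` the sum with `m = 2 t`, so `G i t ^ 2 ≤ M₀ * n`), hence compact in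
`ℝ × (Fin (n+1) → ℝ) × E`; it is non-empty. Its projection to `M` is compact and non-empty, is
`Disc n ∩ Set.Iic M₀`, and so contains its infimum, which is `sInf (Disc n)`.
-/

set_option autoImplicit false

open MeasureTheory Set Finset
open scoped ENNReal

namespace Pool.Agent.H71.MS

/-- Extension of a finite table by zero. -/
noncomputable def attExt (n : ℕ) (H : Fin n → ℝ) (t : ℕ) : ℝ := if h : t < n then H ⟨t, h⟩ else 0

lemma attExt_continuous (n t : ℕ) : Continuous fun H : Fin n → ℝ => attExt n H t := by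
  unfold attExt
  by_cases h : t < n
  · simp only [h, dif_pos]
    exact continuous_apply _
  · simp only [h, dif_neg, not_false_eq_true]
    exact continuous_const

lemma attExt_of_lt {n t : ℕ} (H : Fin n → ℝ) (h : t < n) : attExt n H t = H ⟨t, h⟩ := dif_pos h

lemma attExt_of_le {n t : ℕ} (H : Fin n → ℝ) (h : n ≤ t) : attExt n H t = 0 :=
  dif_neg (not_lt.2 h)

/-- The set of the triples `(M, p, G)` of the `n`-cell problem with `M ≤ M₀`. -/
def attSet (n : ℕ) (M₀ : ℝ) : Set (ℝ × (Fin (n + 1) → ℝ) × (Fin (n + 1) → Fin n → ℝ)) :=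
  {x | (0 ≤ x.1 ∧ x.1 ≤ M₀) ∧ (∀ i, 0 ≤ x.2.1 i) ∧ ∑ i, x.2.1 i = 1 ∧ (∀ i t, 0 ≤ x.2.2 i t) ∧
    (∀ i, ∀ m, ∑ u ∈ range (m + 1), attExt n (x.2.2 i) u * attExt n (x.2.2 i) (m - u) ≤ x.1 * n) ∧
    ∀ t, ∑ i, x.2.1 i * x.2.2 i t = 1}

lemma attSet_isClosed (n : ℕ) (M₀ : ℝ) : IsClosed (attSet n M₀) := by
  unfold attSet
  simp only [Set.ofPred_and, Set.ofPred_forall]
  refine IsClosed.inter (IsClosed.inter ?_ ?_) (IsClosed.inter ?_ (IsClosed.inter ?_
    (IsClosed.inter ?_ (IsClosed.inter ?_ ?_))))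
  · exact isClosed_le continuous_const continuous_fst
  · exact isClosed_le continuous_fst continuous_const
  · refine isClosed_iInter fun i => isClosed_le continuous_const ?_
    exact (continuous_apply i).comp (continuous_fst.comp continuous_snd)
  · refine isClosed_eq ?_ continuous_const
    exact continuous_finsetSum _ fun i _ =>
      (continuous_apply i).comp (continuous_fst.comp continuous_snd)
  · refine isClosed_iInter fun i => isClosed_iInter fun t => isClosed_le continuous_const ?_
    exact (continuous_apply t).comp ((continuous_apply i).comp (continuous_snd.comp continuous_snd))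
  · refine isClosed_iInter fun i => isClosed_iInter fun m => isClosed_le ?_ ?_
    · refine continuous_finsetSum _ fun u _ => Continuous.mul ?_ ?_
      · exact (attExt_continuous n u).comp
          ((continuous_apply i).comp (continuous_snd.comp continuous_snd))
      · exact (attExt_continuous n (m - u)).comp
          ((continuous_apply i).comp (continuous_snd.comp continuous_snd))
    · exact continuous_fst.mul continuous_const
  · refine isClosed_iInter fun t => isClosed_eq ?_ continuous_const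
    refine continuous_finsetSum _ fun i _ => Continuous.mul ?_ ?_
    · exact (continuous_apply i).comp (continuous_fst.comp continuous_snd)
    · exact (continuous_apply t).comp
        ((continuous_apply i).comp (continuous_snd.comp continuous_snd))

lemma attSet_subset (n : ℕ) (M₀ : ℝ) : attSet n M₀ ⊆
    Set.Icc 0 M₀ ×ˢ (Set.univ.pi fun _ => Set.Icc (0:ℝ) 1) ×ˢ
      (Set.univ.pi fun _ => Set.univ.pi fun _ => Set.Icc (0:ℝ) (M₀ * n + 1)) := by
  rintro ⟨M, p, G⟩ ⟨⟨h1, h2⟩, h3, h4, h5, h6, -⟩
  refine ⟨⟨h1, h2⟩, ?_, ?_⟩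
  · intro i _
    refine ⟨h3 i, ?_⟩
    rw [← h4]
    exact Finset.single_le_sum (f := p) (fun j _ => h3 j) (Finset.mem_univ i)
  · intro i _ t _
    refine ⟨h5 i t, ?_⟩
    have hn : (0:ℝ) ≤ n := Nat.cast_nonneg n
    have hnn : ∀ u, 0 ≤ attExt n (G i) u := by
      intro u
      unfold attExt
      split_ifs with h
      · exact h5 i _
      · exact le_rfl
    have h7 : attExt n (G i) t * attExt n (G i) (2 * t - t) ≤ M * n := by
      refine le_trans ?_ (h6 i (2 * (t : ℕ)))
      exact Finset.single_le_sum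
        (f := fun u => attExt n (G i) u * attExt n (G i) (2 * (t:ℕ) - u))
        (fun u _ => mul_nonneg (hnn _) (hnn _)) (Finset.mem_range.2 (by omega))
    have h8 : 2 * (t:ℕ) - t = t := by omega
    rw [h8, attExt_of_lt _ t.2] at h7
    have h9 : M * n ≤ M₀ * n := mul_le_mul_of_nonneg_right h2 hn
    have h10 : 0 ≤ G i t := h5 i t
    change G i t * G i t ≤ M * n at h7
    show G i t ≤ M₀ * n + 1
    nlinarith

lemma attSet_isCompact (n : ℕ) (M₀ : ℝ) : IsCompact (attSet n M₀) := by
  refine IsCompact.of_isClosed_subset ?_ (attSet_isClosed n M₀) (attSet_subset n M₀)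
  refine isCompact_Icc.prod (IsCompact.prod ?_ ?_)
  · exact isCompact_univ_pi fun _ => isCompact_Icc
  · exact isCompact_univ_pi fun _ => isCompact_univ_pi fun _ => isCompact_Icc

lemma attSet_image (n : ℕ) (M₀ : ℝ) : Prod.fst '' attSet n M₀ = Disc n ∩ Set.Iic M₀ := by
  ext M
  constructor
  · rintro ⟨⟨M, p, G⟩, ⟨⟨h1, h2⟩, h3, h4, h5, h6, h7⟩, rfl⟩
    refine ⟨⟨h1, p, fun i => attExt n (G i), h3, h4, fun i => ⟨?_, ?_, h6 i⟩, ?_⟩, h2⟩
    · intro t
      change 0 ≤ attExt n (G i) t
      unfold attExt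
      split_ifs with h
      · exact h5 i _
      · exact le_rfl
    · intro t ht
      exact attExt_of_le _ ht
    · intro t ht
      rw [← h7 ⟨t, ht⟩]
      refine Finset.sum_congr rfl fun i _ => ?_
      change p i * attExt n (G i) t = p i * G i ⟨t, ht⟩
      rw [attExt_of_lt _ ht]
  · rintro ⟨⟨h1, p, G, h3, h4, h5, h6⟩, h2⟩
    have hG : ∀ i t, attExt n (fun s : Fin n => G i s) t = G i t := by
      intro i t
      unfold attExt
      split_ifs with h
      · rfl
      · exact ((h5 i).2.1 t (not_lt.1 h)).symm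
    refine ⟨⟨M, p, fun i t => G i t⟩, ⟨⟨h1, h2⟩, h3, h4, fun i t => (h5 i).1 t, ?_, ?_⟩, rfl⟩
    · intro i m
      simp only [hG]
      exact (h5 i).2.2 m
    · intro t
      exact h6 t t.2

theorem cell_attained_of_nonempty (n : ℕ) (hne : (Disc n).Nonempty) : cellConst n ∈ Disc n := by
  obtain ⟨M₀, hM₀⟩ := hne
  have h1 : IsCompact (Disc n ∩ Set.Iic M₀) := by
    rw [← attSet_image]
    exact (attSet_isCompact n M₀).image continuous_fst
  have h2 : (Disc n ∩ Set.Iic M₀).Nonempty := ⟨M₀, hM₀, Set.mem_Iic.2 le_rfl⟩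
  obtain ⟨M, hM, hmin⟩ := h1.exists_isLeast h2
  have h3 : IsLeast (Disc n) M := by
    refine ⟨hM.1, fun x hx => ?_⟩
    rcases le_total x M₀ with h | h
    · exact hmin ⟨hx, h⟩
    · exact (hM.2 : M ≤ M₀).trans h
  have h4 : cellConst n = M := h3.csInf_eq
  rw [h4]
  exact hM.1

theorem cell_attained (n : ℕ) (hn : 0 < n) : cellConst n ∈ Disc n :=
  cell_attained_of_nonempty n (disc_nonempty n hn)

end Pool.Agent.H71.MS
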