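import Mathlib
import Pool.Agent.H71.MS.Defs
import Pool.Agent.H63.MSUpperA
import Pool.Agent.H63.MSUpperC

/-! Chernoff version of the derandomised labelling. -/

set_option autoImplicit false

namespace Pool.Agent.H71.MS

open Finset Pool.Agent.H63.MS

/-- Chernoff version of `good_labelling`: if all expected pair sums are at most `mu`, the pair counts
exceed their expectation by at most `2 * tau + 1`. -/
theorem labelling_ch {r : ℕ} (p : ℕ → Fin r → ℝ) (n : ℕ) (mu tau : ℝ) (hmu0 : 0 < mu)
    (htau0 : 0 < tau) (htau1 : tau ≤ 2 * mu)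
    (hp0 : ∀ a c, 0 ≤ p a c) (hp1 : ∀ a < n, ∑ c, p a c = 1) (hpn : ∀ a, n ≤ a → ∀ c, p a c = 0)
    (hmu : ∀ k c, ∑ a ∈ pairs k, p a c * p (k - a) c ≤ mu)
    (hbig : 2 * (n:ℝ) * r * Real.exp (-(tau ^ 2 / (4 * mu))) < 1) :
    ∃ ω : ℕ → Option (Fin r), (∀ a < n, ω a ≠ none) ∧ ∀ k : ℕ, ∀ c : Fin r,
      ∑ a ∈ range (k + 1), (if a < n ∧ ω a = some c then (1:ℝ) else 0) *
          (if k - a < n ∧ ω (k - a) = some c then (1:ℝ) else 0) ≤
        ∑ a ∈ range (k + 1), p a c * p (k - a) c + 2 * tau + 1 := by
  set lam : ℝ := tau / (2 * mu) with hlam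
  have hlam0 : 0 < lam := by rw [hlam]; positivity
  have hlam1 : lam ≤ 1 := by rw [hlam, div_le_one (by positivity)]; exact htau1
  set y : ℝ := Real.exp lam - 1 with hy
  have hy0 : 0 ≤ y := by
    have := Real.add_one_le_exp lam
    rw [hy]; linarith
  have hyle : y ≤ lam + lam ^ 2 := by
    have h := Real.abs_exp_sub_one_sub_id_le (x := lam) (by rw [abs_of_pos hlam0]; exact hlam1)
    have := (abs_le.mp h).2
    rw [hy]; linarith
  set μ : ℕ → Fin r → ℝ := fun k c => ∑ a ∈ pairs k, p a c * p (k - a) c with hμ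
  have hμ0 : ∀ k c, 0 ≤ μ k c := fun k c => Finset.sum_nonneg fun a _ => mul_nonneg (hp0 _ _) (hp0 _ _)
  have hμn : ∀ k c, μ k c ≤ mu := fun k c => hmu k c
  set w : ℕ → Fin r → ℝ := fun k c => Real.exp (-(lam * (μ k c + tau))) with hw
  have hround := rounding (fun x => ∑ k ∈ range (2 * n), ∑ c, w k c * pp y k c x)
    (fun x a v hv => pp_multi y (2 * n) w x a v hv) p n hp0 hp1 n le_rfl
  obtain ⟨ω, hωn, hω⟩ := hround
  refine ⟨ω, hωn, ?_⟩
  set x : ℕ → Fin r → ℝ := fun a c => if a < n ∧ ω a = some c then (1:ℝ) else 0 with hx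
  have hxeq : (fun a => if a < n then (fun c => if ω a = some c then (1:ℝ) else 0) else p a) = x := by
    ext a c
    simp only [hx]
    by_cases ha : a < n
    · simp [ha]
    · simp only [ha, if_false, false_and]
      exact hpn a (by omega) c
  rw [hxeq] at hω
  have hx0 : ∀ a c, 0 ≤ x a c := by
    intro a c; simp only [hx]; split_ifs <;> norm_num
  have hx1 : ∀ a c, x a c ≤ 1 := by
    intro a c; simp only [hx]; split_ifs <;> norm_num
  have hppx : ∀ k c, pp y k c x = Real.exp (lam * ∑ a ∈ pairs k, x a c * x (k - a) c) := by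
    intro k c
    unfold pp
    rw [Finset.mul_sum, Real.exp_sum]
    apply Finset.prod_congr rfl
    intro a _
    have h01 : x a c * x (k - a) c = 0 ∨ x a c * x (k - a) c = 1 := by
      simp only [hx]; split_ifs <;> simp
    rcases h01 with h | h
    · rw [h]; simp
    · rw [h, hy]; simp
  have hppp : ∀ k c, pp y k c p ≤ Real.exp (y * μ k c) := by
    intro k c
    unfold pp
    rw [hμ]
    simp only
    rw [Finset.mul_sum, Real.exp_sum]
    apply Finset.prod_le_prod
    · intro a _
      have : 0 ≤ p a c * p (k - a) c := mul_nonneg (hp0 _ _) (hp0 _ _)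
      positivity
    · intro a _
      have := Real.add_one_le_exp (y * (p a c * p (k - a) c))
      linarith
  have hterm : ∀ k c, w k c * pp y k c p ≤ Real.exp (-(tau ^ 2 / (4 * mu))) := by
    intro k c
    calc w k c * pp y k c p ≤ w k c * Real.exp (y * μ k c) :=
          mul_le_mul_of_nonneg_left (hppp k c) (Real.exp_pos _).le
      _ = Real.exp (-(lam * (μ k c + tau)) + y * μ k c) := by
          rw [hw, Real.exp_add]
      _ ≤ Real.exp (-(tau ^ 2 / (4 * mu))) := by
          apply Real.exp_le_exp.mpr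
          have h1 : y * μ k c ≤ (lam + lam ^ 2) * μ k c := mul_le_mul_of_nonneg_right hyle (hμ0 k c)
          have h2 : lam ^ 2 * μ k c ≤ lam ^ 2 * mu := mul_le_mul_of_nonneg_left (hμn k c) (by positivity)
          have h3 : lam * tau = 2 * (tau ^ 2 / (4 * mu)) := by rw [hlam]; field_simp; ring
          have h4 : lam ^ 2 * mu = tau ^ 2 / (4 * mu) := by rw [hlam]; field_simp; ring
          nlinarith
  have htotal : ∑ k ∈ range (2 * n), ∑ c, w k c * pp y k c p < 1 := by
    calc ∑ k ∈ range (2 * n), ∑ c, w k c * pp y k c p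
        ≤ ∑ k ∈ range (2 * n), ∑ _c : Fin r, Real.exp (-(tau ^ 2 / (4 * mu))) :=
          Finset.sum_le_sum fun k _ => Finset.sum_le_sum fun c _ => hterm k c
      _ = 2 * (n:ℝ) * r * Real.exp (-(tau ^ 2 / (4 * mu))) := by
          simp only [Finset.sum_const, card_univ, Fintype.card_fin, card_range, nsmul_eq_mul]
          push_cast
          ring
      _ < 1 := hbig
  have htotx := lt_of_le_of_lt hω htotal
  intro k c
  have hgoal : ∑ a ∈ range (k + 1), x a c * x (k - a) c ≤
        ∑ a ∈ range (k + 1), p a c * p (k - a) c + 2 * tau + 1 := by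
    have hpge := sym_ge (fun a => p a c) (fun a => hp0 a c) k
    have hxle := sym_le (fun a => x a c) (fun a => hx0 a c) (fun a => hx1 a c) k
    by_cases hk : k < 2 * n
    · have hlt : w k c * pp y k c x < 1 := by
        refine lt_of_le_of_lt ?_ htotx
        have h1 : w k c * pp y k c x ≤ ∑ c, w k c * pp y k c x :=
          Finset.single_le_sum (f := fun c => w k c * pp y k c x)
            (fun c _ => by rw [hppx]; positivity) (mem_univ c)
        refine h1.trans ?_
        exact Finset.single_le_sum (f := fun k => ∑ c, w k c * pp y k c x)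
            (fun k _ => Finset.sum_nonneg fun c _ => by rw [hppx]; positivity) (mem_range.mpr hk)
      rw [hppx, hw] at hlt
      simp only at hlt
      rw [← Real.exp_add, Real.exp_lt_one_iff] at hlt
      have h2 : lam * (∑ a ∈ pairs k, x a c * x (k - a) c) < lam * (μ k c + tau) := by linarith
      have h3 := lt_of_mul_lt_mul_left h2 hlam0.le
      have h4 : 2 * μ k c ≤ ∑ a ∈ range (k + 1), p a c * p (k - a) c := hpge
      linarith
    · have h5 : ∑ a ∈ range (k + 1), x a c * x (k - a) c = 0 := by
        apply Finset.sum_eq_zero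
        intro a _
        simp only [hx]
        by_cases ha : a < n
        · have : ¬ (k - a < n) := by omega
          simp [this]
        · simp [ha]
      rw [h5]
      have h6 : 0 ≤ ∑ a ∈ range (k + 1), p a c * p (k - a) c :=
        Finset.sum_nonneg fun a _ => mul_nonneg (hp0 _ _) (hp0 _ _)
      positivity
  exact hgoal

end Pool.Agent.H71.MS
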