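import Mathlib
import Pool.Agent.H71.MS.Defs
import Pool.Agent.H71.MS.LabC
import Pool.Agent.H71.MS.Dis

/-! The discrete quantity `MS([n], r)`, Chernoff version. -/

set_option autoImplicit false

open MeasureTheory Set Finset
open scoped ENNReal

namespace Pool.Agent.H71.MS

open Pool.Agent.H63.MS

lemma mul_sqrt_eq (a b : ℝ) (ha : 0 ≤ a) : a * √b = √(a ^ 2 * b) := by
  rw [Real.sqrt_mul (by positivity), Real.sqrt_sq ha]

theorem table_labelling_ch {r : ℕ} (P : Fin r → ℕ → ℝ) (N : ℕ)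
    (hP0 : ∀ c t, 0 ≤ P c t) (hP1 : ∀ t < N, ∑ c, P c t = 1)
    (W : ℝ) (hW : ∀ c m, ∑ u ∈ range (m + 1), P c u * P c (m - u) ≤ W)
    (B : ℕ) (hB : 0 < B) (n : ℕ) (hn : n ≤ N * B) (mu tau : ℝ) (hmu0 : 0 < mu)
    (hmu : B * W ≤ 2 * mu) (htau0 : 0 < tau) (htau1 : tau ≤ 2 * mu)
    (hbig : 2 * (n:ℝ) * r * Real.exp (-(tau ^ 2 / (4 * mu))) < 1) :
    ∃ ω : ℕ → Option (Fin r), (∀ a < n, ω a ≠ none) ∧ ∀ k : ℕ, ∀ c : Fin r,
      ∑ a ∈ range (k + 1), (if a < n ∧ ω a = some c then (1:ℝ) else 0) *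
          (if k - a < n ∧ ω (k - a) = some c then (1:ℝ) else 0) ≤ B * W + 2 * tau + 1 := by
  set p : ℕ → Fin r → ℝ := fun a c => if a < n then P c (a / B) else 0 with hp
  have hp0 : ∀ a c, 0 ≤ p a c := by
    intro a c
    simp only [hp]
    split_ifs
    · exact hP0 _ _
    · exact le_rfl
  have hple : ∀ a c, p a c ≤ P c (a / B) := by
    intro a c
    simp only [hp]
    split_ifs
    · exact le_rfl
    · exact hP0 _ _
  have hp1 : ∀ a < n, ∑ c, p a c = 1 := by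
    intro a ha
    have haN : a / B < N := by
      rw [Nat.div_lt_iff_lt_mul hB]; omega
    simp only [hp, ha, if_true]
    exact hP1 _ haN
  have hpn : ∀ a, n ≤ a → ∀ c, p a c = 0 := by
    intro a ha c
    simp only [hp]
    rw [if_neg (by omega)]
  have hfull : ∀ k c, ∑ a ∈ range (k + 1), p a c * p (k - a) c ≤ B * W := by
    intro k c
    refine le_trans ?_ (block_conv (P c) (hP0 c) W (hW c) B hB k)
    apply Finset.sum_le_sum
    intro a _
    exact mul_le_mul (hple _ _) (hple _ _) (hp0 _ _) (hP0 _ _)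
  have hpairs : ∀ k c, ∑ a ∈ pairs k, p a c * p (k - a) c ≤ mu := by
    intro k c
    have h1 := sym_ge (fun a => p a c) (fun a => hp0 a c) k
    have h2 := hfull k c
    linarith
  obtain ⟨ω, hω, hcount⟩ := labelling_ch p n mu tau hmu0 htau0 htau1 hp0 hp1 hpn hpairs hbig
  refine ⟨ω, hω, fun k c => (hcount k c).trans ?_⟩
  have := hfull k c
  linarith

/-- `MS([n], r)` from a table, with `x = r √(log (3 n r) / n)`. -/
theorem MSn_le_table_ch {r : ℕ} (hr : 0 < r) (P : Fin r → ℕ → ℝ) (N : ℕ) (hN : 0 < N)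
    (hP0 : ∀ c t, 0 ≤ P c t) (hP1 : ∀ t < N, ∑ c, P c t = 1)
    (W : ℝ) (hW : ∀ c m, ∑ u ∈ range (m + 1), P c u * P c (m - u) ≤ W) (n : ℕ) (hn : 0 < n) :
    (r:ℝ) ^ 2 * MSn n r / n ≤
      (r:ℝ) ^ 2 * W / N * (1 + (N:ℝ) / n) +
      3 * √((r:ℝ) ^ 2 * W / N * (1 + (N:ℝ) / n)) * ((r:ℝ) * √(Real.log (3 * n * r) / n)) +
      5 * ((r:ℝ) * √(Real.log (3 * n * r) / n)) ^ 2 := by
  have hn0 : (0:ℝ) < n := by exact_mod_cast hn
  have hr0 : (0:ℝ) < r := by exact_mod_cast hr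
  have hN0 : (0:ℝ) < N := by exact_mod_cast hN
  have hn1 : (1:ℝ) ≤ n := by exact_mod_cast hn
  have hr1 : (1:ℝ) ≤ r := by exact_mod_cast hr
  have hW0 : 0 ≤ W := by
    have := hW ⟨0, hr⟩ 0
    refine le_trans ?_ this
    exact Finset.sum_nonneg fun u _ => mul_nonneg (hP0 _ _) (hP0 _ _)
  set L := Real.log (3 * n * r) with hL
  have hL1 : 1 ≤ L := by
    rw [hL, Real.le_log_iff_exp_le (by positivity)]
    have h1 := Real.exp_one_lt_d9
    have h2 : (1:ℝ) ≤ n * r := by nlinarith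
    nlinarith
  have hL0 : 0 < L := by linarith
  set B := ⌈(n:ℝ) / N⌉₊ with hB
  have hB0 : 0 < B := Nat.ceil_pos.mpr (by positivity)
  have hB1 : (n:ℝ) / N ≤ B := Nat.le_ceil _
  have hB2 : (B:ℝ) < (n:ℝ) / N + 1 := Nat.ceil_lt_add_one (by positivity)
  have hnB : n ≤ N * B := by
    have : (n:ℝ) ≤ N * B := by
      rw [div_le_iff₀ hN0] at hB1
      linarith
    exact_mod_cast this
  set T := (B:ℝ) * W with hT
  have hT0 : 0 ≤ T := by positivity
  set mu := T / 2 + L with hmu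
  have hmu0 : 0 < mu := by positivity
  set tau := 2 * √(mu * L) with htau
  have htau0 : 0 < tau := by
    have : 0 < √(mu * L) := Real.sqrt_pos.mpr (by positivity)
    positivity
  have hsq : √(mu * L) ^ 2 = mu * L := Real.sq_sqrt (by positivity)
  have htau1 : tau ≤ 2 * mu := by
    have : √(mu * L) ≤ mu := by
      apply Real.sqrt_le_iff.mpr
      constructor
      · exact hmu0.le
      · rw [sq]
        apply mul_le_mul_of_nonneg_left _ hmu0.le
        rw [hmu]; linarith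
    rw [htau]; linarith
  have hbig : 2 * (n:ℝ) * r * Real.exp (-(tau ^ 2 / (4 * mu))) < 1 := by
    have h1 : tau ^ 2 / (4 * mu) = L := by
      rw [htau, mul_pow, hsq]; field_simp; norm_num
    rw [h1, Real.exp_neg, hL, Real.exp_log (by positivity)]
    rw [← div_eq_mul_inv, div_lt_one (by positivity)]
    nlinarith [mul_pos hn0 hr0]
  obtain ⟨ω, hω, hcount⟩ := table_labelling_ch P N hP0 hP1 W hW B hB0 n hnB mu tau hmu0
    (by rw [hmu]; linarith) htau0 htau1 hbig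
  have h2 := MSn_le_of_labelling n r hr ω hω (B * W + 2 * tau + 1) (by positivity) hcount
  -- `√(mu L) ≤ √(T L / 2) + L`
  have h3 : √(mu * L) ≤ √(T * L / 2) + L := by
    have h4 : mu * L ≤ (√(T * L / 2) + L) ^ 2 := by
      have h5 : √(T * L / 2) ^ 2 = T * L / 2 := Real.sq_sqrt (by positivity)
      have h6 : 0 ≤ √(T * L / 2) := Real.sqrt_nonneg _
      rw [hmu]
      nlinarith [mul_nonneg h6 hL0.le]
    calc √(mu * L) ≤ √((√(T * L / 2) + L) ^ 2) := Real.sqrt_le_sqrt h4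
      _ = √(T * L / 2) + L := Real.sqrt_sq (by positivity)
  have h4 : 4 * √(T * L / 2) ≤ 3 * √(T * L) := by
    have h5 : 4 * √(T * L / 2) = √(8 * (T * L)) := by
      rw [mul_sqrt_eq _ _ (by norm_num)]
      congr 1
      ring
    have h6 : 3 * √(T * L) = √(9 * (T * L)) := by
      rw [mul_sqrt_eq _ _ (by norm_num)]
      congr 1
      ring
    rw [h5, h6]
    apply Real.sqrt_le_sqrt
    have : 0 ≤ T * L := by positivity
    linarith
  have h5 : (MSn n r : ℝ) ≤ T + 3 * √(T * L) + 5 * L := by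
    have : (B:ℝ) * W + 2 * tau + 1 ≤ T + 3 * √(T * L) + 5 * L := by
      rw [htau]
      linarith
    exact h2.trans this
  -- scale
  set X := (r:ℝ) ^ 2 * W / N * (1 + (N:ℝ) / n) with hX
  have hX0 : 0 ≤ X := by positivity
  have h6 : (r:ℝ) ^ 2 / n * T ≤ X := by
    have h7 : T ≤ ((n:ℝ) / N + 1) * W := mul_le_mul_of_nonneg_right hB2.le hW0
    calc (r:ℝ) ^ 2 / n * T ≤ (r:ℝ) ^ 2 / n * (((n:ℝ) / N + 1) * W) :=
          mul_le_mul_of_nonneg_left h7 (by positivity)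
      _ = X := by rw [hX]; field_simp
  set q := √(L / n) with hq
  have hq2 : q ^ 2 = L / n := Real.sq_sqrt (by positivity)
  have hq0 : 0 ≤ q := Real.sqrt_nonneg _
  have h7 : (r:ℝ) ^ 2 / n * √(T * L) ≤ √X * (r * q) := by
    have e1 : (r:ℝ) ^ 2 / n * √(T * L) = √(((r:ℝ) ^ 2 / n * T) * ((r:ℝ) ^ 2 * (L / n))) := by
      rw [mul_sqrt_eq _ _ (by positivity)]
      congr 1
      field_simp
    have e3 : (r:ℝ) * q = √((r:ℝ) ^ 2 * (L / n)) := mul_sqrt_eq _ _ hr0.le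
    have e2 : √X * (r * q) = √(X * ((r:ℝ) ^ 2 * (L / n))) := by
      rw [e3]
      exact (Real.sqrt_mul hX0 _).symm
    rw [e1, e2]
    apply Real.sqrt_le_sqrt
    exact mul_le_mul_of_nonneg_right h6 (by positivity)
  have h8 : (r:ℝ) ^ 2 / n * L = (r * q) ^ 2 := by
    rw [mul_pow, hq2]; ring
  calc (r:ℝ) ^ 2 * MSn n r / n = (r:ℝ) ^ 2 / n * MSn n r := by ring
    _ ≤ (r:ℝ) ^ 2 / n * (T + 3 * √(T * L) + 5 * L) := mul_le_mul_of_nonneg_left h5 (by positivity)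
    _ = (r:ℝ) ^ 2 / n * T + 3 * ((r:ℝ) ^ 2 / n * √(T * L)) + 5 * ((r:ℝ) ^ 2 / n * L) := by ring
    _ ≤ X + 3 * (√X * (r * q)) + 5 * (r * q) ^ 2 := by
        rw [h8]
        gcongr
    _ = X + 3 * √X * (r * q) + 5 * (r * q) ^ 2 := by ring

end Pool.Agent.H71.MS
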