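import Mathlib
import Pool.Agent.H71.MS.Defs
import Pool.Agent.H71.MS.Main
import Pool.Agent.H71.MS.RatB
import Pool.Agent.H71.MS.Dis
import Pool.Agent.H71.MS.DisC

/-! The discrete quantity. -/

set_option autoImplicit false

open MeasureTheory Set Finset
open scoped ENNReal Topology

namespace Pool.Agent.H71.MS

open Pool.Agent.H63.MS

theorem dis_lower (n r : ℕ) (hn : 0 < n) (hr : 0 < r) :
    sInf MixSet ≤ (r:ℝ) ^ 2 * MSn n r / n := by
  have h := mix_le_ms r hr
  have h2 := ms_le_MSn n r hn hr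
  calc sInf MixSet ≤ (r:ℝ) ^ 2 * ms r := h
    _ ≤ (r:ℝ) ^ 2 * ((MSn n r : ℝ) / n) := mul_le_mul_of_nonneg_left h2 (by positivity)
    _ = _ := by ring

lemma log_ge_one (n r : ℕ) (hn : 0 < n) (hr : 0 < r) : 1 ≤ Real.log (3 * n * r) := by
  have hn1 : (1:ℝ) ≤ n := by exact_mod_cast hn
  have hr1 : (1:ℝ) ≤ r := by exact_mod_cast hr
  rw [Real.le_log_iff_exp_le (by positivity)]
  have h1 := Real.exp_one_lt_d9
  have h2 : (1:ℝ) ≤ n * r := by nlinarith
  nlinarith

theorem dis_upper (n r : ℕ) (hn : 0 < n) (hr : 0 < r) (x : ℝ)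
    (hx : x = (r:ℝ) * √(Real.log (3 * n * r) / n)) :
    (r:ℝ) ^ 2 * MSn n r / n ≤ (1 + 6 / (r:ℝ) ^ (1 / 3 : ℝ)) * sInf MixSet + 10 * (x + x ^ 2) := by
  have hn0 : (0:ℝ) < n := by exact_mod_cast hn
  have hr0 : (0:ℝ) < r := by exact_mod_cast hr
  have hr1 : (1:ℝ) ≤ r := by exact_mod_cast hr
  have hL1 := log_ge_one n r hn hr
  have hx0 : 0 ≤ x := by rw [hx]; positivity
  have hx2 : x ^ 2 = (r:ℝ) ^ 2 * (Real.log (3 * n * r) / n) := by
    rw [hx, mul_pow, Real.sq_sqrt (by positivity)]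
  -- `r ^ 2 / n ≤ x ^ 2`
  have hrx : (r:ℝ) ^ 2 / n ≤ x ^ 2 := by
    rw [hx2, div_eq_mul_inv]
    apply mul_le_mul_of_nonneg_left _ (by positivity)
    rw [inv_eq_one_div]
    exact div_le_div_of_nonneg_right hL1 hn0.le
  rcases colour_pair _ cc_lower r hr with h | ⟨N, l, hN, hl, hNr, h19, h⟩
  · have h1 := MSn_le_table_ch (r := r) hr (fun _ t => if t = 0 then 1 / (r:ℝ) else 0) 1 one_pos
      (fun c t => by split_ifs <;> positivity)
      (fun t ht => by
        have : t = 0 := by omega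
        subst this
        simp only [if_true, Finset.sum_const, Finset.card_univ, Fintype.card_fin, nsmul_eq_mul]
        field_simp)
      (1 / (r:ℝ) ^ 2)
      (fun c m => by
        rcases Nat.eq_zero_or_pos m with hm | hm
        · subst hm
          simp
          field_simp
          exact le_rfl
        · rw [Finset.sum_eq_zero]
          · positivity
          · intro u hu
            by_cases hu0 : u = 0
            · subst hu0
              rw [if_neg (show ¬ m - 0 = 0 by omega), mul_zero]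
            · rw [if_neg hu0, zero_mul])
      n hn
    rw [← hx] at h1
    have e : (r:ℝ) ^ 2 * (1 / (r:ℝ) ^ 2) / ((1:ℕ):ℝ) * (1 + ((1:ℕ):ℝ) / n) = 1 + 1 / n := by
      push_cast
      field_simp
    rw [e] at h1
    have h2 : (1:ℝ) / n ≤ x ^ 2 := by
      refine le_trans ?_ hrx
      exact div_le_div_of_nonneg_right (one_le_pow₀ hr1) hn0.le
    have hn1 : (1:ℝ) / n ≤ 1 := by
      rw [div_le_one hn0]; exact_mod_cast hn
    have h3 : √(1 + 1 / (n:ℝ)) ≤ 2 := by
      rw [Real.sqrt_le_left (by norm_num)]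
      linarith
    have h4 : 3 * √(1 + 1 / (n:ℝ)) * x ≤ 6 * x := by
      apply mul_le_mul_of_nonneg_right _ hx0
      linarith
    have h5 : 0 ≤ x ^ 2 := by positivity
    linarith
  · have hNr' : (N:ℝ) + 1 < r := by exact_mod_cast hNr
    have hN1 : (1:ℝ) ≤ N := by exact_mod_cast hN
    have hN0 : (0:ℝ) < N := by linarith
    have hd : 0 < (r:ℝ) - (N + 1) := by linarith
    set F := (1 + 1 / (l:ℝ)) * (1 + ((l:ℝ) - 1) / N) with hF
    have hF0 : 0 < F := fac_pos N l hN hl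
    set ρ := ((r:ℝ) / ((r:ℝ) - (N + 1))) ^ 2 with hρ
    have hρ0 : 0 < ρ := by positivity
    set c := sInf MixSet with hc
    set Y := (1 + 6 / (r:ℝ) ^ (1 / 3 : ℝ)) * c with hY
    have hc1 : c ≤ 0.816 := cc_upper
    have hc0 : 0 ≤ c := cc_nonneg
    have hy6 : 6 / (r:ℝ) ^ (1 / 3 : ℝ) ≤ 6 / 19 :=
      div_le_div_of_nonneg_left (by norm_num) (by norm_num) h19.le
    have hy0 : 0 ≤ 6 / (r:ℝ) ^ (1 / 3 : ℝ) := by positivity
    have hY1 : Y ≤ 1.08 := by
      rw [hY]
      calc (1 + 6 / (r:ℝ) ^ (1 / 3 : ℝ)) * c ≤ (1 + 6 / 19) * 0.816 :=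
            mul_le_mul (by linarith) hc1 hc0 (by norm_num)
        _ ≤ 1.08 := by norm_num
    have hY0 : 0 ≤ Y := by rw [hY]; positivity
    have hNn : (N:ℝ) / n ≤ x ^ 2 := by
      refine le_trans ?_ hrx
      apply div_le_div_of_nonneg_right _ hn0.le
      nlinarith
    have hNn0 : 0 ≤ (N:ℝ) / n := by positivity
    -- the bound for every `Z` slightly larger than `F ρ c`
    have key : ∀ η : ℝ, 0 < η → η ≤ 0.01 →
        (r:ℝ) ^ 2 * MSn n r / n ≤ (Y + η) * (1 + (N:ℝ) / n) + 3 * √((Y + η) * (1 + (N:ℝ) / n)) * x +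
          5 * x ^ 2 := by
      intro η hη hη1
      -- choose `M` in `MixSet` with `F ρ M ≤ Y + η`
      obtain ⟨M, hM, hMlt⟩ : ∃ M ∈ MixSet, M < c + η / (F * ρ) :=
        exists_lt_of_csInf_lt mix_nonempty (by
          have : 0 < η / (F * ρ) := by positivity
          linarith)
      have hM2 : F * ρ * M ≤ Y + η := by
        have h6 : F * ρ * M ≤ F * ρ * (c + η / (F * ρ)) :=
          mul_le_mul_of_nonneg_left hMlt.le (by positivity)
        have h7 : F * ρ * (c + η / (F * ρ)) = F * c * ρ + η := by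
          field_simp
        linarith
      have hdisc := disc_of_mix N l hN hl M hM
      rw [← hF] at hdisc
      obtain ⟨P, hP0, hP1, hPN, hW⟩ := table_of_disc N hN _ hdisc r hNr
      have h2 := MSn_le_table_ch hr P N hN hP0 hP1 _ hW n hn
      rw [← hx] at h2
      have e : (r:ℝ) ^ 2 * (F * M * N / ((r:ℝ) - (N + 1)) ^ 2) / N * (1 + (N:ℝ) / n) =
          F * ρ * M * (1 + (N:ℝ) / n) := by
        rw [hρ, div_pow]
        field_simp
      rw [e] at h2
      have h8 : F * ρ * M * (1 + (N:ℝ) / n) ≤ (Y + η) * (1 + (N:ℝ) / n) :=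
        mul_le_mul_of_nonneg_right hM2 (by positivity)
      refine h2.trans ?_
      gcongr
    -- simplify
    have h9 : ∀ η : ℝ, 0 < η → η ≤ 0.01 →
        (r:ℝ) ^ 2 * MSn n r / n ≤ Y + 10 * (x + x ^ 2) + η * (1 + (N:ℝ) / n) := by
      intro η hη hη1
      refine (key η hη hη1).trans ?_
      have hZ : (Y + η) * (1 + (N:ℝ) / n) ≤ 1.09 * (1 + x ^ 2) :=
        mul_le_mul (by linarith) (by linarith) (by positivity) (by norm_num)
      have hs : √((Y + η) * (1 + (N:ℝ) / n)) ≤ 1.1 * (1 + x) := by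
        rw [Real.sqrt_le_left (by positivity)]
        nlinarith
      have h10 : 3 * √((Y + η) * (1 + (N:ℝ) / n)) * x ≤ 3 * (1.1 * (1 + x)) * x := by gcongr
      have h11 : Y * ((N:ℝ) / n) ≤ 1.08 * x ^ 2 := mul_le_mul hY1 hNn hNn0 (by norm_num)
      have h12 : 0 ≤ x ^ 2 := by positivity
      nlinarith
    have hK : 0 < 1 + (N:ℝ) / n := by positivity
    apply le_of_forall_pos_le_add
    intro θ hθ
    have h13 := h9 (min 0.01 (θ / (1 + (N:ℝ) / n))) (by positivity) (min_le_left _ _)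
    have h14 : min 0.01 (θ / (1 + (N:ℝ) / n)) * (1 + (N:ℝ) / n) ≤ θ := by
      calc min 0.01 (θ / (1 + (N:ℝ) / n)) * (1 + (N:ℝ) / n) ≤ θ / (1 + (N:ℝ) / n) * (1 + (N:ℝ) / n) :=
            mul_le_mul_of_nonneg_right (min_le_right _ _) hK.le
        _ = θ := by field_simp
    linarith

end Pool.Agent.H71.MS
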