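import Mathlib
import Pool.Agent.H71.MS.Defs
import Pool.Agent.H71.MS.Main
import Pool.Agent.H71.MS.MainB
import Pool.Agent.H71.MS.DisC

/-! Rate of convergence of `MS([n], r) / n` to `ms([0,1], r)`. -/

set_option autoImplicit false

open MeasureTheory Set Finset
open scoped ENNReal Topology

namespace Pool.Agent.H71.MS

open Pool.Agent.H63.MS

theorem cell_pair (n : ℕ) (hn : 0 < n) : ∃ l : ℕ, 0 < l ∧
    (1 + 1 / (l:ℝ)) * (1 + ((l:ℝ) - 1) / n) ≤ 1 + 3 / √(n:ℝ) := by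
  have hn1 : (1 : ℝ) ≤ n := by exact_mod_cast hn
  obtain ⟨s, hs⟩ : ∃ s : ℝ, s = √(n:ℝ) := ⟨_, rfl⟩
  have hs1 : 1 ≤ s := by rw [hs]; exact Real.one_le_sqrt.2 hn1
  have hsn : s * s = n := by rw [hs]; exact Real.mul_self_sqrt (by linarith)
  obtain ⟨l, hl⟩ : ∃ l : ℕ, l = ⌈s⌉₊ := ⟨_, rfl⟩
  have hl1 : s ≤ l := by rw [hl]; exact Nat.le_ceil s
  have hl2 : (l : ℝ) < s + 1 := by rw [hl]; exact Nat.ceil_lt_add_one (by linarith)
  have hl0 : 0 < l := by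
    have : (0 : ℝ) < l := by linarith
    exact_mod_cast this
  refine ⟨l, hl0, ?_⟩
  have e1 : 1 / (l : ℝ) ≤ 1 / s := one_div_le_one_div_of_le (by linarith) hl1
  have e2 : ((l : ℝ) - 1) / n ≤ 1 / s := by
    rw [div_le_div_iff₀ (by linarith) (by linarith), ← hsn]
    nlinarith
  have e3 : 0 ≤ 1 / s := by positivity
  have e4 : 1 / s ≤ 1 := by rw [div_le_one (by linarith)]; exact hs1
  have e5 : 0 ≤ ((l : ℝ) - 1) / n := div_nonneg (by linarith) (by linarith)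
  rw [← hs]
  calc (1 + 1 / (l:ℝ)) * (1 + ((l:ℝ) - 1) / n) ≤ (1 + 1 / s) * (1 + 1 / s) :=
        mul_le_mul (by linarith) (by linarith) (by linarith) (by linarith)
    _ ≤ 1 + 3 * (1 / s) := by nlinarith
    _ = 1 + 3 / s := by ring

/-- The table of a colouring. -/
theorem table_of_colouring (N l r : ℕ) (hN : 0 < N) (hl : 0 < l) (hr : 0 < r) (ε : ℝ) (hε : 0 < ε)
    (h : ms r < ε) :
    ∃ P : Fin r → ℕ → ℝ, (∀ c t, 0 ≤ P c t) ∧ (∀ t < N, ∑ c, P c t = 1) ∧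
      ∀ c m, ∑ u ∈ range (m + 1), P c u * P c (m - u) ≤
        (1 + 1 / (l:ℝ)) * (1 + ((l:ℝ) - 1) / N) * ε * N := by
  have hr0 : (0:ℝ) < r := by exact_mod_cast hr
  obtain ⟨g, hg, h1⟩ := classes_of_not_attained r hr ε hε (not_attained_of_lt r hr ε h)
  have hfe := fun i => smooth_feas N l hN hl _ (by positivity) (g i) (hg i)
  have hav := smooth_avg N l hN hl (fun _ => 1 / (r:ℝ)) g (fun _ => by positivity) _ hg h1
  refine ⟨fun c t => 1 / (r:ℝ) * smooth N l (g c) t, ?_, ?_, ?_⟩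
  · intro c t
    exact mul_nonneg (by positivity) ((hfe c).1 t)
  · exact hav
  · intro c m
    have h2 := (hfe c).2.2 m
    have h3 : ∑ u ∈ range (m + 1), 1 / (r:ℝ) * smooth N l (g c) u * (1 / (r:ℝ) * smooth N l (g c) (m - u)) =
        1 / (r:ℝ) ^ 2 * ∑ u ∈ range (m + 1), smooth N l (g c) u * smooth N l (g c) (m - u) := by
      rw [Finset.mul_sum]
      apply Finset.sum_congr rfl
      intro u _
      field_simp
    rw [h3]
    calc 1 / (r:ℝ) ^ 2 * ∑ u ∈ range (m + 1), smooth N l (g c) u * smooth N l (g c) (m - u)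
        ≤ 1 / (r:ℝ) ^ 2 * ((1 + 1 / (l:ℝ)) * (1 + ((l:ℝ) - 1) / N) * ((r:ℝ) ^ 2 * ε) * N) :=
          mul_le_mul_of_nonneg_left h2 (by positivity)
      _ = _ := by field_simp

theorem fin_upper (n r : ℕ) (hn : 0 < n) (hr : 0 < r) :
    (MSn n r : ℝ) / n ≤ (1 + 12 / (n:ℝ) ^ (1 / 3 : ℝ)) * ms r +
      11 * √(Real.log (3 * n * r) / n) / r + 5 * Real.log (3 * n * r) / n := by
  have hn0 : (0:ℝ) < n := by exact_mod_cast hn
  have hn1 : (1:ℝ) ≤ n := by exact_mod_cast hn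
  have hr0 : (0:ℝ) < r := by exact_mod_cast hr
  have hr1 : (1:ℝ) ≤ r := by exact_mod_cast hr
  have hL1 := log_ge_one n r hn hr
  obtain ⟨x, hx⟩ : ∃ x : ℝ, x = (r:ℝ) * √(Real.log (3 * n * r) / n) := ⟨_, rfl⟩
  have hx0 : 0 ≤ x := by rw [hx]; positivity
  have hx2 : x ^ 2 = (r:ℝ) ^ 2 * (Real.log (3 * n * r) / n) := by
    rw [hx, mul_pow, Real.sq_sqrt (by positivity)]
  obtain ⟨z, hz⟩ : ∃ z : ℝ, z = (n:ℝ) ^ (1 / 3 : ℝ) := ⟨_, rfl⟩
  have hz1 : 1 ≤ z := by rw [hz]; exact Real.one_le_rpow hn1 (by norm_num)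
  have hz3 : z ^ 3 = n := by
    rw [hz, ← Real.rpow_natCast, ← Real.rpow_mul hn0.le]
    norm_num
  obtain ⟨N, hN⟩ : ∃ N : ℕ, N = ⌈z ^ 2⌉₊ := ⟨_, rfl⟩
  have hN1 : z ^ 2 ≤ N := by rw [hN]; exact Nat.le_ceil _
  have hN2 : (N:ℝ) < z ^ 2 + 1 := by rw [hN]; exact Nat.ceil_lt_add_one (by positivity)
  have hNpos : 0 < N := by
    have : (0:ℝ) < N := by nlinarith
    exact_mod_cast this
  have hNr0 : (0:ℝ) < N := by exact_mod_cast hNpos
  obtain ⟨l, hl, hF⟩ := cell_pair N hNpos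
  set F := (1 + 1 / (l:ℝ)) * (1 + ((l:ℝ) - 1) / N) with hFdef
  have hF0 : 0 < F := fac_pos N l hNpos hl
  have hzs : z ≤ √(N:ℝ) := by
    apply Real.le_sqrt_of_sq_le hN1
  have hF1 : F ≤ 1 + 3 / z := by
    refine hF.trans ?_
    have : 3 / √(N:ℝ) ≤ 3 / z := div_le_div_of_nonneg_left (by norm_num) (by linarith) hzs
    linarith
  have hNn : (N:ℝ) / n ≤ 2 / z := by
    rw [← hz3, div_le_div_iff₀ (by positivity) (by linarith)]
    nlinarith [mul_le_mul hN2.le (le_refl z) (by linarith) (by positivity), hz1, sq_nonneg z]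
  have hE : F * (1 + (N:ℝ) / n) ≤ 1 + 12 / z := by
    have hz0 : 0 < 1 / z := by positivity
    have hz2 : 1 / z ≤ 1 := by rw [div_le_one (by linarith)]; exact hz1
    calc F * (1 + (N:ℝ) / n) ≤ (1 + 3 / z) * (1 + 2 / z) :=
          mul_le_mul hF1 (by linarith) (by positivity) (by positivity)
      _ = (1 + 3 * (1 / z)) * (1 + 2 * (1 / z)) := by ring
      _ ≤ 1 + 12 * (1 / z) := by nlinarith
      _ = 1 + 12 / z := by ring
  have hE13 : 1 + 12 / z ≤ 13 := by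
    have : 12 / z ≤ 12 := by rw [div_le_iff₀ (by linarith)]; linarith
    linarith
  have hms0 := ms_nonneg r
  have hms1 := ms_le_one r hr
  -- bound for every `ε`
  have key : ∀ η : ℝ, 0 < η → (r:ℝ) ^ 2 * η ≤ 0.01 →
      (MSn n r : ℝ) / n ≤ (1 + 12 / z) * (ms r + η) + (11 * x + 5 * x ^ 2) / (r:ℝ) ^ 2 := by
    intro η hη hη1
    obtain ⟨P, hP0, hP1, hW⟩ := table_of_colouring N l r hNpos hl hr (ms r + η) (by linarith) (by linarith)
    have h2 := MSn_le_table_ch hr P N hNpos hP0 hP1 _ hW n hn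
    rw [← hx, ← hFdef] at h2
    have e : (r:ℝ) ^ 2 * (F * (ms r + η) * N) / N * (1 + (N:ℝ) / n) =
        F * (1 + (N:ℝ) / n) * ((r:ℝ) ^ 2 * (ms r + η)) := by
      field_simp
    rw [e] at h2
    have hb0 : 0 ≤ (r:ℝ) ^ 2 * (ms r + η) := by positivity
    have hb1 : (r:ℝ) ^ 2 * (ms r + η) ≤ 1.01 := by
      rw [mul_add]; linarith
    have h3 : F * (1 + (N:ℝ) / n) * ((r:ℝ) ^ 2 * (ms r + η)) ≤
        (1 + 12 / z) * ((r:ℝ) ^ 2 * (ms r + η)) := mul_le_mul_of_nonneg_right hE hb0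
    have h4 : √(F * (1 + (N:ℝ) / n) * ((r:ℝ) ^ 2 * (ms r + η))) ≤ 11 / 3 := by
      rw [Real.sqrt_le_left (by norm_num)]
      calc F * (1 + (N:ℝ) / n) * ((r:ℝ) ^ 2 * (ms r + η)) ≤ (1 + 12 / z) * ((r:ℝ) ^ 2 * (ms r + η)) := h3
        _ ≤ 13 * 1.01 := mul_le_mul hE13 hb1 hb0 (by norm_num)
        _ ≤ (11 / 3) ^ 2 := by norm_num
    have h5 : 3 * √(F * (1 + (N:ℝ) / n) * ((r:ℝ) ^ 2 * (ms r + η))) * x ≤ 11 * x := by
      apply mul_le_mul_of_nonneg_right _ hx0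
      linarith
    have h6 : (r:ℝ) ^ 2 * MSn n r / n ≤ (1 + 12 / z) * ((r:ℝ) ^ 2 * (ms r + η)) + (11 * x + 5 * x ^ 2) := by
      linarith
    have h7 : (MSn n r : ℝ) / n = ((r:ℝ) ^ 2 * MSn n r / n) / (r:ℝ) ^ 2 := by field_simp
    rw [h7]
    calc ((r:ℝ) ^ 2 * MSn n r / n) / (r:ℝ) ^ 2
        ≤ ((1 + 12 / z) * ((r:ℝ) ^ 2 * (ms r + η)) + (11 * x + 5 * x ^ 2)) / (r:ℝ) ^ 2 :=
          div_le_div_of_nonneg_right h6 (by positivity)
      _ = _ := by field_simp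
  have hfin : (MSn n r : ℝ) / n ≤ (1 + 12 / z) * ms r + (11 * x + 5 * x ^ 2) / (r:ℝ) ^ 2 := by
    apply le_of_forall_pos_le_add
    intro θ hθ
    have hK : 0 < 1 + 12 / z := by positivity
    have h8 := key (min (0.01 / (r:ℝ) ^ 2) (θ / (1 + 12 / z))) (by positivity) (by
      calc (r:ℝ) ^ 2 * min (0.01 / (r:ℝ) ^ 2) (θ / (1 + 12 / z)) ≤ (r:ℝ) ^ 2 * (0.01 / (r:ℝ) ^ 2) :=
            mul_le_mul_of_nonneg_left (min_le_left _ _) (by positivity)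
        _ = 0.01 := by field_simp
        _ ≤ 0.01 := le_rfl)
    have h9 : (1 + 12 / z) * min (0.01 / (r:ℝ) ^ 2) (θ / (1 + 12 / z)) ≤ θ := by
      calc (1 + 12 / z) * min (0.01 / (r:ℝ) ^ 2) (θ / (1 + 12 / z)) ≤ (1 + 12 / z) * (θ / (1 + 12 / z)) :=
            mul_le_mul_of_nonneg_left (min_le_right _ _) hK.le
        _ = θ := by field_simp
    linarith
  rw [← hz]
  refine hfin.trans (le_of_eq ?_)
  have e1 : 11 * x / (r:ℝ) ^ 2 = 11 * √(Real.log (3 * n * r) / n) / r := by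
    rw [hx]; field_simp
  have e2 : 5 * x ^ 2 / (r:ℝ) ^ 2 = 5 * Real.log (3 * n * r) / n := by
    rw [hx2]; field_simp
  rw [add_div, e1, e2]
  ring

end Pool.Agent.H71.MS
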